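import Pool.Agent.RainbowSun.Lower

/-!
# The constants of the rainbow sunflower conjecture are at least `(1 - o(1)) k log k` (MP_2812e0_co)

If `g_k(w) = C ^ w` is admissible in the sense of the problem, then `C ≥ (1 - η) k log k` for all
`k ≥ k₀(η)`.
-/

open Finset Filter

namespace Pool.Agent.RainbowSun.BaseLB

/-- The part `X_i` of the partition of `X` described by `χ : X → Fin k`. -/
def part {X : Type} [Fintype X] {k : ℕ} (χ : X → Fin k) (i : Fin k) : Finset X :=
  univ.filter fun x => χ x = i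

/-- The probability that the uniformly random partition of `X` into `k` parts has the property
`P`: every element is put into one of the `k` parts independently and uniformly, so every map
`χ : X → Fin k` has the same probability. -/
noncomputable def prob (X : Type) [Fintype X] (k : ℕ) (P : (X → Fin k) → Prop) : ℝ :=
  (Nat.card {χ : X → Fin k // P χ} : ℝ) / (Nat.card (X → Fin k) : ℝ)

/-- A rainbow `k`-petal sunflower in `F` with respect to the partition given by `χ`: distinct
members `S_i` of `F` with `S_i \ S_j ⊆ X_i` for all `i ≠ j`. -/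
def HasRainbowSunflower {X : Type} [Fintype X] [DecidableEq X] {k : ℕ} (F : Finset (Finset X))
    (χ : X → Fin k) : Prop :=
  ∃ S : Fin k → Finset X, Function.Injective S ∧ (∀ i, S i ∈ F) ∧
    ∀ i j, i ≠ j → S i \ S j ⊆ part χ i

/-- `g` is admissible for `k`: there is `ε(w) → 0` such that for every `w`, every finite ground set
`X` and every `w`-set system `F` on `X` with `|F| ≥ g(w)`, the random partition admits a rainbow
`k`-petal sunflower in `F` with probability at least `1 - ε(w)`. -/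
def Admissible (k : ℕ) (g : ℕ → ℝ) : Prop :=
  ∃ ε : ℕ → ℝ, Tendsto ε atTop (nhds 0) ∧
    ∀ (w : ℕ) (X : Type) [Fintype X] [DecidableEq X] (F : Finset (Finset X)),
      (∀ S ∈ F, S.card = w) → g w ≤ (F.card : ℝ) →
      1 - ε w ≤ prob X k (fun χ => HasRainbowSunflower F χ)

/-- The graph of a word. -/
def gr {w m : ℕ} (c : Fin w → Fin m) : Finset (Fin w × Fin m) := univ.image fun j => (j, c j)

lemma mem_gr {w m : ℕ} {c : Fin w → Fin m} {x : Fin w × Fin m} : x ∈ gr c ↔ x.2 = c x.1 := by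
  rw [gr, mem_image]
  constructor
  · rintro ⟨j, _, rfl⟩; rfl
  · intro h; exact ⟨x.1, mem_univ _, by rw [← h]⟩

lemma card_gr {w m : ℕ} (c : Fin w → Fin m) : (gr c).card = w := by
  rw [gr, card_image_of_injective _ (fun a b h => (Prod.ext_iff.mp h).1), card_univ,
    Fintype.card_fin]

lemma gr_injective {w m : ℕ} : Function.Injective (gr : (Fin w → Fin m) → _) := by
  intro c d h
  funext j
  have h1 : (j, c j) ∈ gr c := mem_gr.mpr rfl
  rw [h] at h1
  exact mem_gr.mp h1

/-- A rainbow sunflower in a code of distance `r` gives `r` good blocks. -/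
lemma good_of_rainbow {w m k r : ℕ} (hk : 2 ≤ k) (F : Finset (Fin w → Fin m))
    (hF : ∀ c ∈ F, ∀ d ∈ F, c ≠ d → r ≤ hammingDist c d) (χ : Fin w × Fin m → Fin k)
    (h : HasRainbowSunflower (F.image gr) χ) :
    r ≤ (univ.filter fun j => Function.Surjective fun a => χ (j, a)).card := by
  obtain ⟨S, hinj, hSF, hS⟩ := h
  have h1 : ∀ i, ∃ c ∈ F, gr c = S i := fun i => mem_image.mp (hSF i)
  choose c hcF hc using h1
  set z : Fin k := ⟨0, by omega⟩
  set o : Fin k := ⟨1, by omega⟩
  have hzo : c z ≠ c o := by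
    intro he
    have : S z = S o := by rw [← hc z, ← hc o, he]
    have := hinj this
    simp [z, o, Fin.ext_iff] at this
  refine (hF _ (hcF z) _ (hcF o) hzo).trans ?_
  unfold hammingDist
  refine card_le_card ?_
  intro j hj
  rw [mem_filter] at hj ⊢
  refine ⟨mem_univ _, fun i => ⟨c i j, ?_⟩⟩
  -- some other word differs from `c i` at `j`
  have h2 : ∃ l, l ≠ i ∧ c l j ≠ c i j := by
    by_contra hcon
    push Not at hcon
    refine hj.2 ?_
    have e1 : c z j = c i j := by
      by_cases hzi : z = i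
      · rw [hzi]
      · exact hcon z hzi
    have e2 : c o j = c i j := by
      by_cases hoi : o = i
      · rw [hoi]
      · exact hcon o hoi
    rw [e1, e2]
  obtain ⟨l, hli, hlj⟩ := h2
  have h3 : (j, c i j) ∈ S i \ S l := by
    rw [Finset.mem_sdiff, ← hc i, ← hc l, mem_gr, mem_gr]
    exact ⟨rfl, fun h => hlj h.symm⟩
  have h4 := hS i l (Ne.symm hli) h3
  rw [part, mem_filter] at h4
  exact h4.2

/-- The criterion. -/
theorem not_admissible (k m t : ℕ) (hk : 2 ≤ k) (hm : 1 ≤ m) (ht : 1 ≤ t) (C : ℝ) (hC : 0 ≤ C)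
    (ha : Real.exp 1 * t < k * ((k - 1 : ℝ) / k) ^ m)
    (hb : C ^ t * (Real.exp 1 * t * m) ≤ (m : ℝ) ^ t) : ¬ Admissible k (fun w => C ^ w) := by
  classical
  rintro ⟨ε, hε, hadm⟩
  have hk' : (2 : ℝ) ≤ k := by exact_mod_cast hk
  have hm' : (0 : ℝ) < m := by exact_mod_cast hm
  have ht' : (0 : ℝ) < t := by exact_mod_cast ht
  have he : 0 < Real.exp 1 := Real.exp_pos 1
  set μ : ℝ := k * ((k - 1 : ℝ) / k) ^ m with hμ
  have hμpos : 0 < μ := lt_trans (by positivity) ha
  set q : ℝ := Real.exp 1 * t / μ with hq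
  have hq0 : 0 ≤ q := by positivity
  have hq1 : q < 1 := by rw [hq, div_lt_one hμpos]; exact ha
  have key : ∀ r : ℕ, 1 ≤ r → 1 - ε (t * r) ≤ q ^ r := by
    intro r hr
    have hrw : r ≤ t * r := Nat.le_mul_of_pos_left r ht
    obtain ⟨F, hF, hFc⟩ := RainbowSun.Lower.exists_code (t * r) m r hr hrw
    have hcard : (F.image gr).card = F.card := card_image_of_injective _ gr_injective
    have hunif : ∀ S ∈ F.image gr, S.card = t * r := by
      intro S hS
      obtain ⟨c, _, rfl⟩ := mem_image.mp hS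
      exact card_gr c
    have hbig : C ^ (t * r) ≤ ((F.image gr).card : ℝ) := by
      rw [hcard]
      have h1 : ((m ^ (t * r) : ℕ) : ℝ) ≤ ((F.card * ((t * r).choose r * m ^ r) : ℕ) : ℝ) := by
        exact_mod_cast hFc
      push_cast at h1
      have h2 : (m : ℝ) ^ (t * r) ≤ F.card * (Real.exp 1 * t * m) ^ r := by
        refine h1.trans ?_
        refine mul_le_mul_of_nonneg_left ?_ (by positivity)
        rw [mul_pow (Real.exp 1 * t)]
        exact mul_le_mul_of_nonneg_right (RainbowSun.Lower.choose_bound t r) (by positivity)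
      have h3 : C ^ (t * r) * (Real.exp 1 * t * m) ^ r ≤ F.card * (Real.exp 1 * t * m) ^ r := by
        refine le_trans ?_ h2
        rw [pow_mul, pow_mul, ← mul_pow]
        exact pow_le_pow_left₀ (by positivity) hb _
      exact le_of_mul_le_mul_right h3 (by positivity)
    have h4 := hadm (t * r) (Fin (t * r) × Fin m) (F.image gr) hunif hbig
    refine h4.trans ?_
    -- upper bound of the probability
    have h5 : Nat.card {χ : Fin (t * r) × Fin m → Fin k // HasRainbowSunflower (F.image gr) χ} ≤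
        (univ.filter fun χ : Fin (t * r) → (Fin m → Fin k) =>
          r ≤ (univ.filter fun j => Function.Surjective (χ j)).card).card := by
      rw [Nat.card_eq_fintype_card, Fintype.card_subtype]
      refine card_le_card_of_injOn (fun χ j a => χ (j, a)) ?_ ?_
      · intro χ hχ
        have hχ' : HasRainbowSunflower (F.image gr) χ := by simpa using hχ
        have := good_of_rainbow hk F hF χ hχ'
        simpa using this
      · intro χ _ χ' _ h
        funext x
        exact congrFun (congrFun h x.1) x.2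
    have h6 := h5.trans (RainbowSun.Lower.many_good (t * r) m k r)
    have h7 : Nat.card (Fin (t * r) × Fin m → Fin k) = (k ^ m) ^ (t * r) := by
      rw [Nat.card_eq_fintype_card, Fintype.card_fun, Fintype.card_prod, Fintype.card_fin,
        Fintype.card_fin, Fintype.card_fin, ← pow_mul, mul_comm m]
    set s := (univ.filter fun f : Fin m → Fin k => Function.Surjective f).card with hs
    have h8 : (s : ℝ) * μ ≤ (k : ℝ) ^ m := RainbowSun.Lower.surj_bound m k hk
    have hN : (0 : ℝ) < (k : ℝ) ^ m := by positivity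
    rw [prob, h7]
    push_cast
    rw [div_le_iff₀ (by positivity)]
    have h9 : (Nat.card {χ : Fin (t * r) × Fin m → Fin k //
        HasRainbowSunflower (F.image gr) χ} : ℝ) ≤
        ((t * r).choose r : ℝ) * ((s : ℝ) ^ r * (((k : ℝ) ^ m) ^ (t * r - r))) := by
      exact_mod_cast h6
    refine h9.trans ?_
    have h10 : (s : ℝ) ≤ (k : ℝ) ^ m / μ := by rw [le_div_iff₀ hμpos]; exact h8
    calc ((t * r).choose r : ℝ) * ((s : ℝ) ^ r * (((k : ℝ) ^ m) ^ (t * r - r))) ≤
          (Real.exp 1 * t) ^ r * (((k : ℝ) ^ m / μ) ^ r * (((k : ℝ) ^ m) ^ (t * r - r))) := by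
          refine mul_le_mul (RainbowSun.Lower.choose_bound t r) ?_ (by positivity) (by positivity)
          refine mul_le_mul_of_nonneg_right ?_ (by positivity)
          exact pow_le_pow_left₀ (by positivity) h10 _
      _ = q ^ r * (((k : ℝ) ^ m) ^ r * (((k : ℝ) ^ m) ^ (t * r - r))) := by
          rw [hq, div_pow, div_pow]; ring
      _ = q ^ r * ((k : ℝ) ^ m) ^ (t * r) := by
          rw [← pow_add, Nat.add_sub_cancel' hrw]
  -- the limit
  have hlim1 : Tendsto (fun r : ℕ => 1 - ε (t * r)) atTop (nhds (1 - 0)) := by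
    refine tendsto_const_nhds.sub (hε.comp ?_)
    exact tendsto_id.const_mul_atTop' (by omega)
  have hlim2 : Tendsto (fun r : ℕ => q ^ r) atTop (nhds 0) :=
    tendsto_pow_atTop_nhds_zero_of_lt_one hq0 hq1
  have := le_of_tendsto_of_tendsto hlim1 hlim2
    (eventually_atTop.mpr ⟨1, fun r hr => key r hr⟩)
  norm_num at this

/-- The estimates for large `k`. -/
lemma estimates (δ : ℝ) (hδ : 0 < δ) (hδ1 : δ < 1 / 2) (k : ℕ) (hk : 1000 / δ ^ 3 ≤ Real.log k) :
    2 ≤ k ∧ 1 ≤ ⌊(1 - δ) * k * Real.log k⌋₊ ∧ 1 ≤ ⌈Real.log k ^ 2⌉₊ ∧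
    Real.exp 1 * ⌈Real.log k ^ 2⌉₊ <
      k * ((k - 1 : ℝ) / k) ^ ⌊(1 - δ) * k * Real.log k⌋₊ ∧
    ((1 - 2 * δ) * k * Real.log k) ^ ⌈Real.log k ^ 2⌉₊ *
      (Real.exp 1 * ⌈Real.log k ^ 2⌉₊ * ⌊(1 - δ) * k * Real.log k⌋₊) ≤
      (⌊(1 - δ) * k * Real.log k⌋₊ : ℝ) ^ ⌈Real.log k ^ 2⌉₊ := by
  set L : ℝ := Real.log k with hL
  have hδ3 : 0 < δ ^ 3 := by positivity
  have hδ3' : δ ^ 3 ≤ δ := by
    have : δ ^ 3 = δ * δ ^ 2 := by ring
    rw [this]
    have h1 : δ ^ 2 ≤ 1 := by nlinarith
    nlinarith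
  have hLδ3 : 1000 ≤ L * δ ^ 3 := by rwa [div_le_iff₀ hδ3] at hk
  have hLpos : 0 < L := lt_of_lt_of_le (by positivity) hk
  have hLδ : 1000 ≤ L * δ := hLδ3.trans (mul_le_mul_of_nonneg_left hδ3' hLpos.le)
  have hL1 : 2000 ≤ L := by nlinarith
  have hkpos : (0 : ℝ) < k := by
    by_contra hcon
    have h0 : (k : ℝ) = 0 := le_antisymm (not_lt.mp hcon) (Nat.cast_nonneg k)
    rw [hL, h0, Real.log_zero] at hL1
    norm_num at hL1
  have hkL : L + 1 ≤ k := by
    have h1 := Real.add_one_le_exp L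
    rwa [hL, Real.exp_log hkpos, ← hL] at h1
  have hk2 : (2 : ℝ) ≤ k := by linarith
  have hk1pos : (0 : ℝ) < (k : ℝ) - 1 := by linarith
  set m : ℕ := ⌊(1 - δ) * k * L⌋₊ with hm
  set t : ℕ := ⌈L ^ 2⌉₊ with ht
  have hmle : (m : ℝ) ≤ (1 - δ) * k * L := by
    apply Nat.floor_le
    have : 0 ≤ 1 - δ := by linarith
    positivity
  have hmge : (1 - δ) * k * L - 1 < m := Nat.sub_one_lt_floor _
  have hkLδ : 1000 ≤ k * L * δ := by nlinarith
  have hmge' : (1 - 3 * δ / 2) * (k * L) ≤ m := by nlinarith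
  have htge : L ^ 2 ≤ t := Nat.le_ceil _
  have htle : (t : ℝ) ≤ 2 * L ^ 2 := by
    have h1 : (t : ℝ) < L ^ 2 + 1 := Nat.ceil_lt_add_one (by positivity)
    nlinarith
  have hm1 : 1 ≤ m := by
    have h1 : (1 : ℝ) ≤ m := by nlinarith
    exact_mod_cast h1
  have ht1 : 1 ≤ t := by
    have h1 : (1 : ℝ) ≤ t := by nlinarith
    exact_mod_cast h1
  refine ⟨by exact_mod_cast hk2, hm1, ht1, ?_, ?_⟩
  · -- coupon collecting
    have hratio : 0 < ((k : ℝ) - 1) / k := by positivity
    have h1 : -(1 / ((k : ℝ) - 1)) ≤ Real.log (((k : ℝ) - 1) / k) := by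
      have h2 := Real.one_sub_inv_le_log_of_pos hratio
      have h3 : 1 - (((k : ℝ) - 1) / k)⁻¹ = -(1 / ((k : ℝ) - 1)) := by
        field_simp; ring
      rwa [h3] at h2
    have h4 : (m : ℝ) / (k - 1) ≤ (1 - δ / 2) * L := by
      rw [div_le_iff₀ hk1pos]
      refine hmle.trans ?_
      -- `(1-δ) k ≤ (1-δ/2)(k-1)`
      have h5 : (1 - δ) * k ≤ (1 - δ / 2) * (k - 1) := by nlinarith
      nlinarith
    have h6 : (δ / 2) * L ≤ Real.log (k * (((k : ℝ) - 1) / k) ^ m) := by
      rw [Real.log_mul hkpos.ne' (by positivity), Real.log_pow, ← hL]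
      have h7 : -(m / ((k : ℝ) - 1)) ≤ m * Real.log (((k : ℝ) - 1) / k) := by
        have := mul_le_mul_of_nonneg_left h1 (Nat.cast_nonneg m)
        have h8 : (m : ℝ) * -(1 / ((k : ℝ) - 1)) = -(m / ((k : ℝ) - 1)) := by ring
        rwa [h8] at this
      nlinarith
    have h9 : Real.exp ((δ / 2) * L) ≤ k * (((k : ℝ) - 1) / k) ^ m := by
      have := Real.exp_le_exp.mpr h6
      rwa [Real.exp_log (by positivity)] at this
    refine lt_of_lt_of_le ?_ h9
    have h10 : ((δ / 2) * L) ^ 3 / (3 : ℕ).factorial ≤ Real.exp ((δ / 2) * L) :=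
      Real.pow_div_factorial_le_exp _ (by positivity) 3
    refine lt_of_lt_of_le ?_ h10
    have h11 : ((3 : ℕ).factorial : ℝ) = 6 := by norm_num [Nat.factorial]
    rw [h11]
    have h12 : Real.exp 1 < 3 := lt_trans Real.exp_one_lt_d9 (by norm_num)
    have h13 : Real.exp 1 * t ≤ 3 * (2 * L ^ 2) :=
      mul_le_mul h12.le htle (by positivity) (by norm_num)
    refine lt_of_le_of_lt h13 ?_
    have h14 : ((δ / 2) * L) ^ 3 / 6 = L ^ 2 * (L * δ ^ 3) / 48 := by ring
    rw [h14, lt_div_iff₀ (by norm_num)]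
    have h15 : 0 < L ^ 2 := by positivity
    nlinarith
  · -- the size of the code
    have hmpos : (0 : ℝ) < m := by exact_mod_cast hm1
    have hC0 : 0 ≤ (1 - 2 * δ) * k * L := by
      have : 0 ≤ 1 - 2 * δ := by linarith
      positivity
    have h1 : (1 - 2 * δ) * k * L ≤ (1 - δ / 2) * m := by
      have h2 : (1 - 2 * δ) ≤ (1 - δ / 2) * (1 - 3 * δ / 2) := by nlinarith
      have h3 : 0 ≤ 1 - δ / 2 := by linarith
      calc (1 - 2 * δ) * k * L = (1 - 2 * δ) * (k * L) := by ring
        _ ≤ ((1 - δ / 2) * (1 - 3 * δ / 2)) * (k * L) :=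
          mul_le_mul_of_nonneg_right h2 (by positivity)
        _ = (1 - δ / 2) * ((1 - 3 * δ / 2) * (k * L)) := by ring
        _ ≤ (1 - δ / 2) * m := mul_le_mul_of_nonneg_left hmge' h3
    have h4 : (1 - δ / 2) ^ t ≤ Real.exp (-(δ / 2 * L ^ 2)) := by
      have h5 : 1 - δ / 2 ≤ Real.exp (-(δ / 2)) := by
        have := Real.add_one_le_exp (-(δ / 2)); linarith
      calc (1 - δ / 2) ^ t ≤ Real.exp (-(δ / 2)) ^ t :=
            pow_le_pow_left₀ (by linarith) h5 _
        _ = Real.exp (t * -(δ / 2)) := by rw [← Real.exp_nat_mul]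
        _ ≤ _ := by
            apply Real.exp_le_exp.mpr
            have h15 : L ^ 2 * (δ / 2) ≤ t * (δ / 2) :=
              mul_le_mul_of_nonneg_right htge (by positivity)
            linarith
    -- `e t m ≤ exp (δ/2 L²)`
    have h6 : Real.exp 1 * t * m ≤ Real.exp (δ / 2 * L ^ 2) := by
      have h12 : Real.exp 1 < 3 := lt_trans Real.exp_one_lt_d9 (by norm_num)
      have h7 : (m : ℝ) ≤ k * L := by nlinarith
      have h8 : Real.exp 1 * t * m ≤ 3 * (2 * L ^ 2) * (k * L) := by
        refine mul_le_mul ?_ h7 (by positivity) (by positivity)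
        exact mul_le_mul h12.le htle (by positivity) (by norm_num)
      refine h8.trans ?_
      have h9 : L ^ 3 / (3 : ℕ).factorial ≤ Real.exp L := Real.pow_div_factorial_le_exp _ hLpos.le 3
      have h11 : ((3 : ℕ).factorial : ℝ) = 6 := by norm_num [Nat.factorial]
      rw [h11] at h9
      have h13 : (k : ℝ) = Real.exp L := by rw [hL, Real.exp_log hkpos]
      have h14 : (36 : ℝ) ≤ Real.exp L := by linarith
      calc 3 * (2 * L ^ 2) * (k * L) = 36 * (L ^ 3 / 6) * k := by ring
        _ ≤ Real.exp L * Real.exp L * Real.exp L := by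
            rw [h13]
            refine mul_le_mul_of_nonneg_right ?_ (by positivity)
            exact mul_le_mul h14 h9 (by positivity) (by positivity)
        _ = Real.exp (3 * L) := by rw [← Real.exp_add, ← Real.exp_add]; ring_nf
        _ ≤ _ := by
            apply Real.exp_le_exp.mpr
            have h15 : 1000 * L ≤ (L * δ) * L := mul_le_mul_of_nonneg_right hLδ hLpos.le
            have h16 : δ / 2 * L ^ 2 = (L * δ) * L / 2 := by ring
            rw [h16]
            linarith
    calc ((1 - 2 * δ) * k * L) ^ t * (Real.exp 1 * t * m) ≤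
          ((1 - δ / 2) * m) ^ t * Real.exp (δ / 2 * L ^ 2) :=
          mul_le_mul (pow_le_pow_left₀ hC0 h1 _) h6 (by positivity)
            (pow_nonneg (mul_nonneg (by linarith) hmpos.le) _)
      _ = (m : ℝ) ^ t * ((1 - δ / 2) ^ t * Real.exp (δ / 2 * L ^ 2)) := by rw [mul_pow]; ring
      _ ≤ (m : ℝ) ^ t * (Real.exp (-(δ / 2 * L ^ 2)) * Real.exp (δ / 2 * L ^ 2)) := by
          refine mul_le_mul_of_nonneg_left ?_ (by positivity)
          exact mul_le_mul_of_nonneg_right h4 (by positivity)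
      _ = (m : ℝ) ^ t := by rw [← Real.exp_add]; simp

/-- If `g_k(w) = C ^ w` is admissible then `C ≥ (1 - η) k log k`, for all `k ≥ k₀(η)`. -/
theorem result (η : ℝ) (hη : 0 < η) :
    ∃ k₀ : ℕ, ∀ k : ℕ, k₀ ≤ k → ∀ C : ℝ, 0 ≤ C → Admissible k (fun w => C ^ w) →
      (1 - η) * k * Real.log k ≤ C := by
  rcases le_or_gt 1 η with h1 | h1
  · refine ⟨1, fun k hk C hC _ => ?_⟩
    have h2 : 0 ≤ Real.log k := Real.log_natCast_nonneg k
    have h3 : (1 - η) * k * Real.log k ≤ 0 := by
      have h4 : (0 : ℝ) ≤ k * Real.log k := by positivity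
      nlinarith
    linarith
  · refine ⟨⌈Real.exp (1000 / (η / 2) ^ 3)⌉₊, fun k hk C hC hadm => ?_⟩
    by_contra hcon
    push Not at hcon
    have hk' : Real.exp (1000 / (η / 2) ^ 3) ≤ k := (Nat.le_ceil _).trans (by exact_mod_cast hk)
    have hlog : 1000 / (η / 2) ^ 3 ≤ Real.log k := by
      have := Real.log_le_log (Real.exp_pos _) hk'
      rwa [Real.log_exp] at this
    obtain ⟨e1, e2, e3, e4, e5⟩ := estimates (η / 2) (by linarith) (by linarith) k hlog
    refine not_admissible k _ _ e1 e2 e3 C hC e4 ?_ hadm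
    refine le_trans (mul_le_mul_of_nonneg_right ?_ (by positivity)) e5
    refine pow_le_pow_left₀ hC ?_ _
    have h2 : (1 - 2 * (η / 2)) = 1 - η := by ring
    rw [h2]
    exact hcon.le

end Pool.Agent.RainbowSun.BaseLB
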