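import Mathlib

/-!
# Counting lemmas for rainbow sunflowers (MP_2812e0_co)

`recol χ T c` recolours the set `T` with the colour `c`.  Two encodings are used:
* `few_count`: the pairs `(S, χ)` such that few members of the family `G` lie in
  `S ∪ (colour class a)` are few;
* `lonely_count`: the pairs `(S, χ)` such that `S \ Y` has colour `a` and few members of `G` lie in
  `S ∪ (colour class c)` are few.
-/

open Finset

namespace Pool.Agent.RainbowSun

variable {X : Type*} [Fintype X] [DecidableEq X] {k : ℕ}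

/-- Recolour the set `T` with `c`. -/
def recol (χ : X → Fin k) (T : Finset X) (c : Fin k) : X → Fin k :=
  fun x => if x ∈ T then c else χ x

/-- The number of members of `F` containing `Y`. -/
def deg (F : Finset (Finset X)) (Y : Finset X) : ℕ := (F.filter fun S => Y ⊆ S).card

/-- The colour class of `c`. -/
def cls (χ : X → Fin k) (c : Fin k) : Finset X := univ.filter fun x => χ x = c

omit [DecidableEq X] in
lemma mem_cls {χ : X → Fin k} {c : Fin k} {x : X} : x ∈ cls χ c ↔ χ x = c := by simp [cls]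

lemma card_recol_fiber (χ' : X → Fin k) (T : Finset X) (a : Fin k) :
    (univ.filter fun χ : X → Fin k => recol χ T a = χ').card ≤ k ^ T.card := by
  have h : (univ : Finset (T → Fin k)).card = k ^ T.card := by simp
  rw [← h]
  refine card_le_card_of_injOn (fun χ x => χ x) (fun _ _ => mem_coe.mpr (mem_univ _)) ?_
  intro χ₁ h₁ χ₂ h₂ he
  have h₁' : recol χ₁ T a = χ' := by simpa using h₁
  have h₂' : recol χ₂ T a = χ' := by simpa using h₂
  funext x
  by_cases hx : x ∈ T
  · exact congrFun he ⟨x, hx⟩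
  · have e1 := congrFun h₁' x
    have e2 := congrFun h₂' x
    simp only [recol, hx, if_false] at e1 e2
    rw [e1, e2]

/-- The first encoding. -/
lemma few_count (G : Finset (Finset X)) (Y : Finset X) (m : ℕ) (hG : ∀ S ∈ G, Y ⊆ S)
    (hm : ∀ S ∈ G, (S \ Y).card ≤ m) (hk : 1 ≤ k) (a : Fin k) (h : ℕ) :
    ((G ×ˢ (univ : Finset (X → Fin k))).filter fun p =>
      (G.filter fun S' => S' ⊆ p.1 ∪ cls p.2 a).card ≤ h).card ≤
      h * k ^ m * k ^ Fintype.card X := by
  have huniv : (univ : Finset (X → Fin k)).card = k ^ Fintype.card X := by simp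
  rw [← huniv]
  refine card_le_mul_card_image_of_maps_to (f := fun p => recol p.2 (p.1 \ Y) a)
    (fun _ _ => mem_univ _) _ ?_
  intro χ' _
  set Φ := (((G ×ˢ (univ : Finset (X → Fin k))).filter fun p =>
      (G.filter fun S' => S' ⊆ p.1 ∪ cls p.2 a).card ≤ h).filter
      fun p => recol p.2 (p.1 \ Y) a = χ') with hΦ
  rcases Φ.eq_empty_or_nonempty with he | ⟨p₀, hp₀⟩
  · rw [he]; simp
  set G' := G.filter fun S' => S' \ Y ⊆ cls χ' a with hG'
  have hp₀' : p₀.1 ∈ G ∧ (G.filter fun S' => S' ⊆ p₀.1 ∪ cls p₀.2 a).card ≤ h ∧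
      recol p₀.2 (p₀.1 \ Y) a = χ' := by
    rw [hΦ] at hp₀
    simp only [mem_filter, mem_product, mem_univ, and_true] at hp₀
    exact ⟨hp₀.1.1, hp₀.1.2, hp₀.2⟩
  have hG'card : G'.card ≤ h := by
    refine le_trans (card_le_card ?_) hp₀'.2.1
    intro S' hS'
    rw [hG', mem_filter] at hS'
    rw [mem_filter]
    refine ⟨hS'.1, fun x hx => ?_⟩
    rw [mem_union, mem_cls]
    by_cases hxY : x ∈ Y
    · exact Or.inl (hG _ hp₀'.1 hxY)
    · have hx' : χ' x = a := mem_cls.mp (hS'.2 (mem_sdiff.mpr ⟨hx, hxY⟩))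
      by_cases hxp : x ∈ p₀.1
      · exact Or.inl hxp
      · right
        have := congrFun hp₀'.2.2 x
        simp only [recol, mem_sdiff, hxp, false_and, if_false] at this
        rw [this, hx']
  -- the fibre is contained in a union over `G'`
  have hsub : Φ ⊆ G'.biUnion fun S => (univ.filter fun χ : X → Fin k =>
      recol χ (S \ Y) a = χ').image fun χ => (S, χ) := by
    intro p hp
    rw [hΦ] at hp
    simp only [mem_filter, mem_product, mem_univ, and_true] at hp
    rw [mem_biUnion]
    refine ⟨p.1, ?_, ?_⟩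
    · rw [hG', mem_filter]
      refine ⟨hp.1.1, fun x hx => ?_⟩
      rw [mem_cls, ← hp.2]
      simp only [recol, hx, if_true]
    · rw [mem_image]
      exact ⟨p.2, by simp [hp.2], rfl⟩
  calc Φ.card ≤ _ := card_le_card hsub
    _ ≤ ∑ S ∈ G', ((univ.filter fun χ : X → Fin k =>
      recol χ (S \ Y) a = χ').image fun χ => (S, χ)).card := card_biUnion_le
    _ ≤ ∑ _S ∈ G', k ^ m := by
        refine sum_le_sum fun S hS => ?_
        refine card_image_le.trans ((card_recol_fiber _ _ _).trans ?_)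
        exact Nat.pow_le_pow_right hk (hm S (mem_filter.mp hS).1)
    _ = G'.card * k ^ m := by rw [sum_const, smul_eq_mul]
    _ ≤ h * k ^ m := Nat.mul_le_mul_right _ hG'card

/-- The second encoding. -/
lemma lonely_count (G : Finset (Finset X)) (Y : Finset X) (hG : ∀ S ∈ G, Y ⊆ S)
    (a c : Fin k) (h : ℕ) :
    ((G ×ˢ (univ : Finset (X → Fin k))).filter fun p => (∀ x ∈ p.1 \ Y, p.2 x = a) ∧
      (G.filter fun S' => S' ⊆ p.1 ∪ cls p.2 c).card ≤ h).card ≤
      h * k ^ Fintype.card X := by
  have huniv : (univ : Finset (X → Fin k)).card = k ^ Fintype.card X := by simp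
  rw [← huniv]
  refine card_le_mul_card_image_of_maps_to (f := fun p => recol p.2 (p.1 \ Y) c)
    (fun _ _ => mem_univ _) _ ?_
  intro χ' _
  set Φ := (((G ×ˢ (univ : Finset (X → Fin k))).filter fun p => (∀ x ∈ p.1 \ Y, p.2 x = a) ∧
      (G.filter fun S' => S' ⊆ p.1 ∪ cls p.2 c).card ≤ h).filter
      fun p => recol p.2 (p.1 \ Y) c = χ') with hΦ
  rcases Φ.eq_empty_or_nonempty with he | ⟨p₀, hp₀⟩
  · rw [he]; simp
  set G' := G.filter fun S' => S' \ Y ⊆ cls χ' c with hG'
  have hp₀' : p₀.1 ∈ G ∧ (G.filter fun S' => S' ⊆ p₀.1 ∪ cls p₀.2 c).card ≤ h ∧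
      recol p₀.2 (p₀.1 \ Y) c = χ' := by
    rw [hΦ] at hp₀
    simp only [mem_filter, mem_product, mem_univ, and_true] at hp₀
    exact ⟨hp₀.1.1, hp₀.1.2.2, hp₀.2⟩
  have hG'card : G'.card ≤ h := by
    refine le_trans (card_le_card ?_) hp₀'.2.1
    intro S' hS'
    rw [hG', mem_filter] at hS'
    rw [mem_filter]
    refine ⟨hS'.1, fun x hx => ?_⟩
    rw [mem_union, mem_cls]
    by_cases hxY : x ∈ Y
    · exact Or.inl (hG _ hp₀'.1 hxY)
    · have hx' : χ' x = c := mem_cls.mp (hS'.2 (mem_sdiff.mpr ⟨hx, hxY⟩))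
      by_cases hxp : x ∈ p₀.1
      · exact Or.inl hxp
      · right
        have := congrFun hp₀'.2.2 x
        simp only [recol, mem_sdiff, hxp, false_and, if_false] at this
        rw [this, hx']
  refine le_trans ?_ hG'card
  refine card_le_card_of_injOn (fun p => p.1) ?_ ?_
  · intro p hp
    have hp' := hp
    rw [hΦ] at hp'
    simp only [coe_filter, mem_filter, mem_product, mem_univ, and_true, Set.mem_ofPred_eq] at hp'
    simp only [hG', coe_filter, Set.mem_ofPred_eq]
    refine ⟨hp'.1.1, fun x hx => ?_⟩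
    rw [mem_cls, ← hp'.2]
    simp only [recol, hx, if_true]
  · intro p hp p' hp' he
    have h1 := hp
    have h2 := hp'
    rw [hΦ] at h1 h2
    simp only [coe_filter, mem_filter, mem_product, mem_univ, and_true, Set.mem_ofPred_eq] at h1 h2
    have he' : p.1 = p'.1 := he
    refine Prod.ext he' ?_
    funext x
    by_cases hx : x ∈ p.1 \ Y
    · rw [h1.1.2.1 x hx, h2.1.2.1 x (he' ▸ hx)]
    · have e1 := congrFun h1.2 x
      have e2 := congrFun h2.2 x
      rw [← he'] at e2
      simp only [recol, hx, if_false] at e1 e2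
      rw [e1, e2]

end Pool.Agent.RainbowSun
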