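import Mathlib

/-!
# Lower bound for the base: codes and coupon collecting (MP_2812e0_co)
-/

open Finset

namespace Pool.Agent.RainbowSun.Lower

/-! ## Codes -/

/-- A greedy (maximal) code. -/
lemma exists_code (w m r : ℕ) (hr : 1 ≤ r) (hrw : r ≤ w) :
    ∃ F : Finset (Fin w → Fin m), (∀ c ∈ F, ∀ d ∈ F, c ≠ d → r ≤ hammingDist c d) ∧
      m ^ w ≤ F.card * (w.choose r * m ^ r) := by
  classical
  -- a maximal code
  obtain ⟨F, hF, hmax⟩ := exists_max_image
    ((univ : Finset (Finset (Fin w → Fin m))).filter fun F =>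
      ∀ c ∈ F, ∀ d ∈ F, c ≠ d → r ≤ hammingDist c d) card
    ⟨∅, by simp⟩
  rw [mem_filter] at hF
  refine ⟨F, hF.2, ?_⟩
  have hcov : ∀ x : Fin w → Fin m, ∃ f ∈ F, hammingDist x f < r := by
    intro x
    by_contra hcon
    push Not at hcon
    have hx : x ∉ F := by
      intro hx
      have := hcon x hx
      rw [hammingDist_self] at this
      omega
    have h1 := hmax (insert x F) (by
      rw [mem_filter]
      refine ⟨mem_univ _, fun c hc d hd hcd => ?_⟩
      rw [mem_insert] at hc hd
      rcases hc with rfl | hc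
      · rcases hd with rfl | hd
        · exact absurd rfl hcd
        · exact hcon d hd
      · rcases hd with rfl | hd
        · rw [hammingDist_comm]; exact hcon c hc
        · exact hF.2 c hc d hd hcd)
    rw [card_insert_of_notMem hx] at h1
    omega
  -- balls are small
  have hball : ∀ f : Fin w → Fin m,
      (univ.filter fun x : Fin w → Fin m => hammingDist x f < r).card ≤ w.choose r * m ^ r := by
    intro f
    have hsub : (univ.filter fun x : Fin w → Fin m => hammingDist x f < r) ⊆
        (powersetCard r (univ : Finset (Fin w))).biUnion fun J =>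
          Fintype.piFinset fun j => if j ∈ J then univ else {f j} := by
      intro x hx
      rw [mem_filter] at hx
      have h1 : (univ.filter fun j => x j ≠ f j).card ≤ r := hx.2.le
      have h2 : r ≤ (univ : Finset (Fin w)).card := by rw [card_univ, Fintype.card_fin]; exact hrw
      obtain ⟨J, hJ1, hJ2, hJ3⟩ := exists_subsuperset_card_eq (subset_univ _) h1 h2
      rw [mem_biUnion]
      refine ⟨J, mem_powersetCard.mpr ⟨subset_univ _, hJ3⟩, ?_⟩
      rw [Fintype.mem_piFinset]
      intro j
      by_cases hj : j ∈ J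
      · simp [hj]
      · simp only [hj, if_false, mem_singleton]
        by_contra hne
        exact hj (hJ1 (mem_filter.mpr ⟨mem_univ _, hne⟩))
    refine (card_le_card hsub).trans (card_biUnion_le.trans ?_)
    calc _ ≤ ∑ _J ∈ powersetCard r (univ : Finset (Fin w)), m ^ r := by
          refine sum_le_sum fun J hJ => ?_
          rw [Fintype.card_piFinset]
          have h1 : ∀ j, (if j ∈ J then (univ : Finset (Fin m)) else {f j}).card =
              if j ∈ J then m else 1 := by
            intro j
            split_ifs <;> simp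
          rw [prod_congr rfl fun j _ => h1 j, prod_ite, prod_const, prod_const_one, mul_one,
            filter_mem_eq_inter, univ_inter, (mem_powersetCard.mp hJ).2]
      _ = w.choose r * m ^ r := by
          rw [sum_const, card_powersetCard, card_univ, Fintype.card_fin, smul_eq_mul]
  have h2 : (univ : Finset (Fin w → Fin m)) ⊆ F.biUnion fun f =>
      univ.filter fun x : Fin w → Fin m => hammingDist x f < r := by
    intro x _
    obtain ⟨f, hf, hx⟩ := hcov x
    exact mem_biUnion.mpr ⟨f, hf, mem_filter.mpr ⟨mem_univ _, hx⟩⟩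
  have h3 : (univ : Finset (Fin w → Fin m)).card = m ^ w := by
    rw [card_univ, Fintype.card_fun, Fintype.card_fin, Fintype.card_fin]
  rw [← h3]
  refine (card_le_card h2).trans (card_biUnion_le.trans ?_)
  calc _ ≤ ∑ _f ∈ F, w.choose r * m ^ r := sum_le_sum fun f _ => hball f
    _ = _ := by rw [sum_const, smul_eq_mul]

/-! ## Coupon collecting -/

lemma card_avoid (m k : ℕ) (A : Finset (Fin k)) :
    (univ.filter fun f : Fin m → Fin k => ∀ i ∈ A, ∀ a, f a ≠ i).card = (k - A.card) ^ m := by
  classical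
  have h1 : (univ.filter fun f : Fin m → Fin k => ∀ i ∈ A, ∀ a, f a ≠ i) =
      Fintype.piFinset fun _ : Fin m => Aᶜ := by
    ext f
    rw [mem_filter, Fintype.mem_piFinset]
    simp only [mem_univ, true_and, mem_compl]
    constructor
    · intro h a ha
      exact h _ ha a rfl
    · intro h i hi a ha
      exact h a (ha ▸ hi)
  rw [h1, Fintype.card_piFinset_const, card_compl, Fintype.card_fin]

/-- The number of surjections is at most `k ^ m / μ`, `μ = k (1 - 1/k) ^ m`. -/
lemma surj_bound (m k : ℕ) (hk : 2 ≤ k) :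
    ((univ.filter fun f : Fin m → Fin k => Function.Surjective f).card : ℝ) *
      (k * ((k - 1 : ℝ) / k) ^ m) ≤ (k : ℝ) ^ m := by
  classical
  have hk' : (2 : ℝ) ≤ k := by exact_mod_cast hk
  have hk0 : (0 : ℝ) < k := by linarith
  set Z : (Fin m → Fin k) → ℝ := fun f =>
    ∑ i : Fin k, if ∀ a, f a ≠ i then (1 : ℝ) else 0 with hZ
  set N : ℝ := (k : ℝ) ^ m with hN
  set a₁ : ℝ := (k - 1 : ℝ) ^ m with ha₁
  set a₂ : ℝ := (k - 2 : ℝ) ^ m with ha₂
  have hcardN : ((univ : Finset (Fin m → Fin k)).card : ℝ) = N := by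
    rw [card_univ, Fintype.card_fun, Fintype.card_fin, Fintype.card_fin]; push_cast; rfl
  have h1 : ∀ i : Fin k, ∑ f : Fin m → Fin k, (if ∀ a, f a ≠ i then (1 : ℝ) else 0) = a₁ := by
    intro i
    rw [sum_boole]
    have := card_avoid m k {i}
    simp only [mem_singleton, forall_eq, card_singleton] at this
    rw [this, ha₁, Nat.cast_pow, Nat.cast_sub (by omega)]
    norm_num
  have h2 : ∀ i j : Fin k, i ≠ j → ∑ f : Fin m → Fin k,
      (if ∀ a, f a ≠ i then (1 : ℝ) else 0) * (if ∀ a, f a ≠ j then (1 : ℝ) else 0) = a₂ := by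
    intro i j hij
    have h3 : ∀ f : Fin m → Fin k,
        (if ∀ a, f a ≠ i then (1 : ℝ) else 0) * (if ∀ a, f a ≠ j then (1 : ℝ) else 0) =
        if ∀ l ∈ ({i, j} : Finset (Fin k)), ∀ a, f a ≠ l then (1 : ℝ) else 0 := by
      intro f
      simp only [mem_insert, mem_singleton, forall_eq_or_imp, forall_eq]
      by_cases hi : ∀ a, f a ≠ i <;> by_cases hj : ∀ a, f a ≠ j <;> simp [hi, hj]
    rw [sum_congr rfl fun f _ => h3 f, sum_boole, card_avoid, card_pair hij, ha₂, Nat.cast_pow,
      Nat.cast_sub hk]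
    norm_num
  have hS1 : ∑ f, Z f = k * a₁ := by
    rw [hZ, sum_comm, sum_congr rfl fun i _ => h1 i, sum_const, card_univ, Fintype.card_fin,
      nsmul_eq_mul]
  have hS2 : ∑ f, Z f ^ 2 ≤ k * a₁ + k ^ 2 * a₂ := by
    have h4 : ∀ f, Z f ^ 2 = ∑ i : Fin k, ∑ j : Fin k,
        (if ∀ a, f a ≠ i then (1 : ℝ) else 0) * (if ∀ a, f a ≠ j then (1 : ℝ) else 0) := by
      intro f
      rw [hZ, sq, sum_mul_sum]
    rw [sum_congr rfl fun f _ => h4 f, sum_comm]
    have h5 : ∀ i : Fin k, ∑ f : Fin m → Fin k, ∑ j : Fin k,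
        (if ∀ a, f a ≠ i then (1 : ℝ) else 0) * (if ∀ a, f a ≠ j then (1 : ℝ) else 0) ≤
        a₁ + k * a₂ := by
      intro i
      rw [sum_comm]
      have ha₂0 : 0 ≤ a₂ := by
        rw [ha₂]; exact pow_nonneg (by linarith) _
      have h6 : ∀ j : Fin k, ∑ f : Fin m → Fin k,
          (if ∀ a, f a ≠ i then (1 : ℝ) else 0) * (if ∀ a, f a ≠ j then (1 : ℝ) else 0) ≤
          (if j = i then a₁ else 0) + a₂ := by
        intro j
        by_cases hij : j = i
        · subst hij
          rw [if_pos rfl]
          have h7 : ∀ f : Fin m → Fin k,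
            (if ∀ a, f a ≠ j then (1 : ℝ) else 0) * (if ∀ a, f a ≠ j then (1 : ℝ) else 0) =
              (if ∀ a, f a ≠ j then (1 : ℝ) else 0) := by
            intro f; split_ifs <;> simp
          rw [sum_congr rfl fun f _ => h7 f, h1 j]
          linarith
        · rw [if_neg hij, h2 i j (Ne.symm hij)]
          linarith
      refine (sum_le_sum fun j _ => h6 j).trans ?_
      rw [sum_add_distrib, sum_ite_eq' univ i, if_pos (mem_univ _), sum_const, card_univ,
        Fintype.card_fin, nsmul_eq_mul]
    refine (sum_le_sum fun i _ => h5 i).trans ?_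
    rw [sum_const, card_univ, Fintype.card_fin, nsmul_eq_mul]
    apply le_of_eq; ring
  -- Cauchy-Schwarz
  set P := univ.filter fun f : Fin m → Fin k => ¬ Function.Surjective f with hP
  have hZ0 : ∀ f, f ∉ P → Z f = 0 := by
    intro f hf
    rw [hP, mem_filter] at hf
    simp only [mem_univ, true_and, not_not] at hf
    rw [hZ]
    refine sum_eq_zero fun i _ => ?_
    obtain ⟨a, ha⟩ := hf i
    rw [if_neg]
    push Not
    exact ⟨a, ha⟩
  have hCS : (∑ f, Z f) ^ 2 ≤ (P.card : ℝ) * ∑ f, Z f ^ 2 := by
    have h3 : ∑ f, Z f = ∑ f ∈ P, Z f := by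
      symm
      exact sum_subset (subset_univ _) fun f _ hf => hZ0 f hf
    have h4 : (∑ f ∈ P, Z f) ^ 2 ≤ (P.card : ℝ) * ∑ f ∈ P, Z f ^ 2 :=
      sq_sum_le_card_mul_sum_sq
    rw [h3]
    refine h4.trans ?_
    refine mul_le_mul_of_nonneg_left ?_ (by positivity)
    exact sum_le_sum_of_subset_of_nonneg (subset_univ _) fun _ _ _ => sq_nonneg _
  rw [hS1] at hCS
  have hNpos : 0 < N := by positivity
  have ha₁pos : 0 < a₁ := by rw [ha₁]; exact pow_pos (by linarith) _
  have hprod : a₂ * N ≤ a₁ ^ 2 := by
    rw [ha₂, hN, ha₁, ← mul_pow, ← pow_mul, mul_comm m 2, pow_mul]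
    exact pow_le_pow_left₀ (mul_nonneg (by linarith) hk0.le) (by nlinarith) _
  have hPc : ((univ.filter fun f : Fin m → Fin k => Function.Surjective f).card : ℝ) + P.card =
      N := by
    rw [← hcardN, hP]
    have := card_filter_add_card_filter_not (s := (univ : Finset (Fin m → Fin k)))
      (fun f => Function.Surjective f)
    exact_mod_cast this
  set s : ℝ := ((univ.filter fun f : Fin m → Fin k => Function.Surjective f).card : ℝ) with hs
  have hs0 : 0 ≤ s := by positivity
  have hP0 : (0 : ℝ) ≤ P.card := by positivity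
  -- `(k a₁)² ≤ P (k a₁ + k² a₂)`, times `N`
  have h8 : (k * a₁) ^ 2 * N ≤ P.card * (k * a₁ * N + (k * a₁) ^ 2) := by
    have h9 := mul_le_mul_of_nonneg_right (hCS.trans (mul_le_mul_of_nonneg_left hS2 hP0)) hNpos.le
    refine h9.trans ?_
    rw [mul_assoc]
    refine mul_le_mul_of_nonneg_left ?_ hP0
    nlinarith
  -- so `k a₁ N ≤ P (N + k a₁)`
  have h10 : (k * a₁) * N ≤ P.card * (N + k * a₁) := by
    have h11 : 0 < k * a₁ := by positivity
    have h12 : (k * a₁) * ((k * a₁) * N) ≤ (k * a₁) * (P.card * (N + k * a₁)) := by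
      calc (k * a₁) * ((k * a₁) * N) = (k * a₁) ^ 2 * N := by ring
        _ ≤ P.card * (k * a₁ * N + (k * a₁) ^ 2) := h8
        _ = _ := by ring
    exact le_of_mul_le_mul_left h12 h11
  have h13 : s * (k * a₁) ≤ N * N := by
    have h14 : (P.card : ℝ) = N - s := by linarith
    rw [h14] at h10
    nlinarith
  have h15 : ((k - 1 : ℝ) / k) ^ m = a₁ / N := by rw [ha₁, hN, div_pow]
  rw [h15]
  rw [mul_div_assoc', mul_div_assoc', div_le_iff₀ hNpos]
  exact h13

/-! ## Good blocks -/

/-- The number of colourings with many good blocks. -/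
lemma many_good (w m k r : ℕ) :
    (univ.filter fun χ : Fin w → (Fin m → Fin k) =>
      r ≤ (univ.filter fun j => Function.Surjective (χ j)).card).card ≤
      w.choose r * ((univ.filter fun f : Fin m → Fin k => Function.Surjective f).card ^ r *
        (k ^ m) ^ (w - r)) := by
  classical
  set s := univ.filter fun f : Fin m → Fin k => Function.Surjective f with hs
  have hsub : (univ.filter fun χ : Fin w → (Fin m → Fin k) =>
      r ≤ (univ.filter fun j => Function.Surjective (χ j)).card) ⊆
      (powersetCard r (univ : Finset (Fin w))).biUnion fun J =>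
        Fintype.piFinset fun j => if j ∈ J then s else univ := by
    intro χ hχ
    rw [mem_filter] at hχ
    obtain ⟨J, hJ1, hJ2⟩ := exists_subset_card_eq hχ.2
    rw [mem_biUnion]
    refine ⟨J, mem_powersetCard.mpr ⟨subset_univ _, hJ2⟩, ?_⟩
    rw [Fintype.mem_piFinset]
    intro j
    by_cases hj : j ∈ J
    · simp only [hj, if_true, hs, mem_filter, mem_univ, true_and]
      exact (mem_filter.mp (hJ1 hj)).2
    · simp [hj]
  refine (card_le_card hsub).trans (card_biUnion_le.trans ?_)
  calc _ ≤ ∑ _J ∈ powersetCard r (univ : Finset (Fin w)), s.card ^ r * (k ^ m) ^ (w - r) := by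
        refine sum_le_sum fun J hJ => ?_
        rw [Fintype.card_piFinset]
        have h1 : ∀ j, (if j ∈ J then s else univ).card = if j ∈ J then s.card else k ^ m := by
          intro j
          split_ifs <;> simp
        rw [prod_congr rfl fun j _ => h1 j, prod_ite, prod_const, prod_const,
          filter_mem_eq_inter, univ_inter, (mem_powersetCard.mp hJ).2]
        have h2 : (univ.filter fun j => j ∉ J).card = w - r := by
          have : (univ.filter fun j => j ∉ J) = Jᶜ := by ext j; simp
          rw [this, card_compl, Fintype.card_fin, (mem_powersetCard.mp hJ).2]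
        rw [h2]
    _ = _ := by
        rw [sum_const, card_powersetCard, card_univ, Fintype.card_fin, smul_eq_mul]

/-- `binomial (t r, r) ≤ (e t) ^ r`. -/
lemma choose_bound (t r : ℕ) : ((t * r).choose r : ℝ) ≤ (Real.exp 1 * t) ^ r := by
  rcases Nat.eq_zero_or_pos r with h0 | h0
  · subst h0; simp
  have h1 : ((t * r).choose r : ℝ) ≤ ((t * r : ℕ) : ℝ) ^ r / (r.factorial : ℝ) :=
    Nat.choose_le_pow_div r (t * r)
  refine h1.trans ?_
  have h2 : (r : ℝ) ^ r / r.factorial ≤ Real.exp r := Real.pow_div_factorial_le_exp _ (by positivity) _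
  have h3 : Real.exp (r : ℝ) = Real.exp 1 ^ r := by rw [← Real.exp_nat_mul]; simp
  rw [h3] at h2
  push_cast
  rw [mul_pow, mul_pow, mul_div_assoc, mul_comm (Real.exp 1 ^ r)]
  exact mul_le_mul_of_nonneg_left h2 (by positivity)

end Pool.Agent.RainbowSun.Lower
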