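import Pool.Agent.RainbowSun.Nested

/-!
# Choice of the parameters (MP_2812e0_co)
-/

open Finset

namespace Pool.Agent.RainbowSun

variable {X : Type*} [Fintype X] [DecidableEq X] {k : ℕ}

/-- The constant `Λ`. -/
noncomputable def Lam (k : ℕ) : ℝ := 2 * Real.log 2 + 2 * Real.log (k + 1) + 2 * Real.log (4 * k)

lemma Lam_pos {k : ℕ} (hk : 2 ≤ k) : 0 < Lam k := by
  have h1 : (0 : ℝ) < Real.log 2 := Real.log_pos (by norm_num)
  have hk' : (2 : ℝ) ≤ k := by exact_mod_cast hk
  have h2 : (0 : ℝ) < Real.log (k + 1) := Real.log_pos (by linarith)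
  have h3 : (0 : ℝ) < Real.log (4 * k) := Real.log_pos (by linarith)
  unfold Lam; linarith

/-- The extremal choice of the kernel `Y₀`. -/
lemma extremal (F : Finset (Finset X)) (w : ℕ) (hw : 1 ≤ w)
    (c₀ : ℝ) (hc₀ : 0 < c₀) (hlog : w * c₀ ≤ Real.log F.card) :
    ∃ Y₀ : Finset X, Y₀.card < w ∧ 1 ≤ deg F Y₀ ∧
      Real.sqrt ((w - Y₀.card : ℕ) * w) * c₀ ≤ Real.log (deg F Y₀) ∧
      ∀ Z : Finset X, Y₀ ⊆ Z → Z.card < w → 1 ≤ deg F Z →
        Real.log (deg F Z) ≤ Real.log (deg F Y₀) *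
          (1 - (Z.card - Y₀.card : ℝ) / (2 * (w - Y₀.card : ℕ))) := by
  classical
  have hw' : (0 : ℝ) < w := by exact_mod_cast hw
  have hFne : 1 ≤ F.card := by
    by_contra h
    have : F.card = 0 := by omega
    rw [this] at hlog
    simp at hlog
    nlinarith
  set A : Finset (Finset X) := univ.filter fun Y => Y.card < w ∧ 1 ≤ deg F Y with hA
  have hdeg0 : deg F ∅ = F.card := by simp [deg]
  have hAne : A.Nonempty := ⟨∅, by rw [hA, mem_filter]; exact ⟨mem_univ _, by rw [card_empty]; omega, by rw [hdeg0]; exact hFne⟩⟩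
  obtain ⟨Y₀, hY₀, hmax⟩ := exists_max_image A
    (fun Y => Real.log (deg F Y) / Real.sqrt ((w - Y.card : ℕ) : ℝ)) hAne
  rw [hA, mem_filter] at hY₀
  obtain ⟨-, hY₀w, hY₀d⟩ := hY₀
  have hm : (1 : ℝ) ≤ ((w - Y₀.card : ℕ) : ℝ) := by
    have : 1 ≤ w - Y₀.card := by omega
    exact_mod_cast this
  set m : ℝ := ((w - Y₀.card : ℕ) : ℝ) with hmdef
  have hmval : m = w - Y₀.card := by
    rw [hmdef, Nat.cast_sub hY₀w.le]
  have hmpos : 0 < m := by linarith
  have hsm : 0 < Real.sqrt m := Real.sqrt_pos.mpr hmpos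
  have hsw : 0 < Real.sqrt w := Real.sqrt_pos.mpr hw'
  refine ⟨Y₀, hY₀w, hY₀d, ?_, ?_⟩
  · have h1 := hmax ∅ (by rw [hA, mem_filter]; exact ⟨mem_univ _, by rw [card_empty]; omega, by rw [hdeg0]; exact hFne⟩)
    simp only [card_empty, Nat.sub_zero, hdeg0] at h1
    rw [div_le_div_iff₀ hsw hsm] at h1
    -- `log |F| * √m ≤ log M * √w`
    rw [Real.sqrt_mul hmpos.le]
    have h2 : (w : ℝ) = Real.sqrt w * Real.sqrt w := (Real.mul_self_sqrt hw'.le).symm
    have h3 : (w * c₀) * Real.sqrt m ≤ Real.log (deg F Y₀) * Real.sqrt w :=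
      (mul_le_mul_of_nonneg_right hlog hsm.le).trans h1
    have h4 : (Real.sqrt m * Real.sqrt w * c₀) * Real.sqrt w ≤
        Real.log (deg F Y₀) * Real.sqrt w := by
      calc (Real.sqrt m * Real.sqrt w * c₀) * Real.sqrt w =
          ((Real.sqrt w * Real.sqrt w) * c₀) * Real.sqrt m := by ring
        _ = (w * c₀) * Real.sqrt m := by rw [← h2]
        _ ≤ _ := h3
    exact le_of_mul_le_mul_right h4 hsw
  · intro Z hYZ hZw hZd
    have h1 := hmax Z (by rw [hA, mem_filter]; exact ⟨mem_univ _, hZw, hZd⟩)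
    have hz : (1 : ℝ) ≤ ((w - Z.card : ℕ) : ℝ) := by
      have : 1 ≤ w - Z.card := by omega
      exact_mod_cast this
    set q : ℝ := ((w - Z.card : ℕ) : ℝ) with hq
    have hqval : q = w - Z.card := by rw [hq, Nat.cast_sub hZw.le]
    have hqpos : 0 < q := by linarith
    have hsq : 0 < Real.sqrt q := Real.sqrt_pos.mpr hqpos
    rw [div_le_div_iff₀ hsq hsm] at h1
    have hMlog : 0 ≤ Real.log (deg F Y₀) := Real.log_natCast_nonneg _
    -- `√q ≤ √m * (1 - z/(2m))`
    have hzz : (Z.card - Y₀.card : ℝ) = m - q := by rw [hmval, hqval]; ring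
    rw [hzz]
    have hqm : q ≤ m := by
      have : (Y₀.card : ℝ) ≤ Z.card := by exact_mod_cast card_le_card hYZ
      linarith
    have h2 : Real.sqrt q ≤ Real.sqrt m * (1 - (m - q) / (2 * m)) := by
      have h3 : Real.sqrt m * (1 - (m - q) / (2 * m)) = (m + q) / (2 * Real.sqrt m) := by
        have h4 : m = Real.sqrt m * Real.sqrt m := (Real.mul_self_sqrt hmpos.le).symm
        have h5 : (1 - (m - q) / (2 * m)) = (m + q) / (2 * m) := by field_simp; ring
        rw [h5]
        rw [mul_div_assoc', div_eq_div_iff (by positivity) (by positivity)]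
        have : Real.sqrt m * (m + q) * (2 * Real.sqrt m) = (m + q) * (2 * (Real.sqrt m * Real.sqrt m)) := by ring
        rw [this, ← h4]
      rw [h3, le_div_iff₀ (by positivity)]
      have h6 : Real.sqrt q * Real.sqrt q = q := Real.mul_self_sqrt hqpos.le
      have h7 : Real.sqrt m * Real.sqrt m = m := Real.mul_self_sqrt hmpos.le
      nlinarith [sq_nonneg (Real.sqrt m - Real.sqrt q)]
    have h8 : Real.log (deg F Z) * Real.sqrt m ≤
        (Real.log (deg F Y₀) * (1 - (m - q) / (2 * m))) * Real.sqrt m := by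
      calc _ ≤ Real.log (deg F Y₀) * Real.sqrt q := h1
        _ ≤ Real.log (deg F Y₀) * (Real.sqrt m * (1 - (m - q) / (2 * m))) :=
          mul_le_mul_of_nonneg_left h2 hMlog
        _ = _ := by ring
    exact le_of_mul_le_mul_right h8 hsm

/-- The main theorem in terms of exceptional sets of colourings. -/
theorem main (hk : 2 ≤ k) (ε : ℝ) (hε : 0 < ε) (F : Finset (Finset X)) (w : ℕ) (hw : 1 ≤ w)
    (hF : ∀ S ∈ F, S.card = w)
    (hbig : w * (k * Lam k * (1 + 4 / ε)) ≤ Real.log F.card) :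
    ∃ (Y₀ : Finset X) (E : Finset (X → Fin k)),
      (E.card : ℝ) ≤ (2 : ℝ) ^ (-Real.sqrt w) * k ^ Fintype.card X ∧
      ∀ χ ∉ E, ∃ S : ℕ → Finset X, (∀ c, c < k → S c ∈ F ∧ Y₀ ⊆ S c) ∧
        (∀ c, 1 ≤ c → c < k → S c ≠ S 0 ∧ (∀ x ∈ S c \ S 0, (χ x : ℕ) = c) ∧
          (∀ x ∈ S 0 \ S c, (χ x : ℕ) = 0) ∧
          (((S 0 ∩ S c) \ Y₀).card : ℝ) ≤ ε / 2 * ((w - Y₀.card : ℕ) : ℝ)) ∧
        ∀ c d, 1 ≤ c → c ≤ d → d < k → S 0 ∩ S c ⊆ S 0 ∩ S d := by
  classical
  have hΛ := Lam_pos hk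
  have hk' : (2 : ℝ) ≤ k := by exact_mod_cast hk
  have hw' : (1 : ℝ) ≤ w := by exact_mod_cast hw
  set c₀ : ℝ := k * Lam k * (1 + 4 / ε) with hc₀
  have hc₀pos : 0 < c₀ := by positivity
  obtain ⟨Y₀, hY₀w, hY₀d, hlogM, hspread⟩ := extremal F w hw c₀ hc₀pos hbig
  set m : ℕ := w - Y₀.card with hm
  have hm1 : 1 ≤ m := by omega
  have hm1' : (1 : ℝ) ≤ m := by exact_mod_cast hm1
  set s : ℝ := Real.sqrt (m * w) with hs
  have hmw : (m : ℝ) ≤ w := by
    have : m ≤ w := by omega
    exact_mod_cast this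
  have hsm : (m : ℝ) ≤ s := by
    rw [hs]
    apply Real.le_sqrt_of_sq_le
    nlinarith
  have hsw : Real.sqrt w ≤ s := by
    rw [hs]
    apply Real.sqrt_le_sqrt
    nlinarith
  have hs1 : 1 ≤ s := hm1'.trans hsm
  set F' : Finset (Finset X) := F.filter fun S => Y₀ ⊆ S with hF'
  have hF'c : (F'.card : ℝ) = (deg F Y₀ : ℝ) := rfl
  set δ : ℝ := (2 : ℝ) ^ (-s) / (k + 1) with hδ
  have h2s : 0 < (2 : ℝ) ^ (-s) := Real.rpow_pos_of_pos (by norm_num) _
  have hδpos : 0 < δ := by positivity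
  have hδ1 : δ ≤ 1 := by
    rw [hδ, div_le_one (by positivity)]
    have : (2 : ℝ) ^ (-s) ≤ 1 := Real.rpow_le_one_of_one_le_of_nonpos (by norm_num) (by linarith)
    linarith
  set σ : ℝ := δ ^ 2 / (4 * k * (4 * k) ^ m) with hσ
  have hσpos : 0 < σ := by positivity
  have hlogσ : -(s * Lam k) ≤ Real.log σ := by
    have e1 : Real.log σ = 2 * (-s * Real.log 2 - Real.log (k + 1)) -
        (Real.log (4 * k) + m * Real.log (4 * k)) := by
      rw [hσ, Real.log_div (by positivity) (by positivity), Real.log_pow, hδ,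
        Real.log_div h2s.ne' (by positivity), Real.log_rpow (by norm_num),
        Real.log_mul (by positivity) (by positivity), Real.log_pow]
      push_cast; ring
    rw [e1, Lam]
    have l2 : 0 ≤ Real.log (k + 1) := Real.log_nonneg (by linarith)
    have l3 : 0 ≤ Real.log (4 * k) := Real.log_nonneg (by linarith)
    have b1 : Real.log (k + 1) ≤ s * Real.log (k + 1) := le_mul_of_one_le_left l2 hs1
    have b2 : Real.log (4 * k) ≤ s * Real.log (4 * k) := le_mul_of_one_le_left l3 hs1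
    have b3 : m * Real.log (4 * k) ≤ s * Real.log (4 * k) := mul_le_mul_of_nonneg_right hsm l3
    nlinarith
  have hMpos : (0 : ℝ) < F'.card := by rw [hF'c]; exact_mod_cast hY₀d
  have hlogM' : s * c₀ ≤ Real.log F'.card := by rw [hF'c]; exact hlogM
  have hlogthr : Real.log F'.card - k * (s * Lam k) ≤ Real.log (F'.card * σ ^ k) := by
    rw [Real.log_mul hMpos.ne' (by positivity), Real.log_pow]
    have : -(k * (s * Lam k)) ≤ k * Real.log σ := by
      have := mul_le_mul_of_nonneg_left hlogσ (by linarith : (0 : ℝ) ≤ k)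
      linarith
    linarith
  have hkΛ : k * Lam k ≤ c₀ := by
    rw [hc₀]
    have h1 : 0 < k * Lam k := by positivity
    have h2 : 0 < 4 / ε := by positivity
    nlinarith
  have hM1 : 1 ≤ (F'.card : ℝ) * σ ^ k := by
    have h1 : 0 ≤ Real.log (F'.card * σ ^ k) := by
      refine le_trans ?_ hlogthr
      have : k * (s * Lam k) = s * (k * Lam k) := by ring
      rw [this]
      have := mul_le_mul_of_nonneg_left hkΛ (by linarith : (0 : ℝ) ≤ s)
      linarith
    by_contra hcon
    have := Real.log_neg (by positivity) (not_le.mp hcon)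
    linarith
  obtain ⟨E, hE, hnest⟩ := core hk F' Y₀ m (fun S hS => (mem_filter.mp hS).2)
    (fun S hS => by
      have h1 := mem_filter.mp hS
      rw [card_sdiff_of_subset h1.2, hF S h1.1]) δ σ hδpos hδ1 hσpos
    (by rw [hσ]; field_simp; exact le_rfl) hM1
  refine ⟨Y₀, E, ?_, ?_⟩
  · refine hE.trans ?_
    rw [← mul_assoc]
    refine mul_le_mul_of_nonneg_right ?_ (by positivity)
    have h1 : (k + 1 : ℝ) * δ = (2 : ℝ) ^ (-s) := by rw [hδ]; field_simp
    rw [h1]
    exact Real.rpow_le_rpow_of_exponent_le (by norm_num) (by linarith)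
  · intro χ hχ
    obtain ⟨S, hS0, hSc, hn⟩ := hnest χ hχ
    have hmemF : ∀ c, c < k → S c ∈ F' := by
      intro c hc
      rcases Nat.eq_zero_or_pos c with h0 | h0
      · rw [h0]; exact hS0
      · exact (hSc c h0 hc).1
    refine ⟨S, fun c hc => ?_, fun c h1 hc => ?_, hn⟩
    · exact mem_filter.mp (hmemF c hc)
    · obtain ⟨a1, a2, a3, a4, a5⟩ := hSc c h1 hc
      refine ⟨a2, a3, a4, ?_⟩
      have hY0 := (mem_filter.mp hS0)
      have hYc := (mem_filter.mp a1)
      have hYsub : Y₀ ⊆ S 0 ∩ S c := subset_inter hY0.2 hYc.2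
      set Z := S 0 ∩ S c with hZ
      have hdegZ : deg F' Z = deg F Z := by
        unfold deg
        congr 1
        ext T
        simp only [hF', mem_filter]
        exact ⟨fun h => ⟨h.1.1, h.2⟩, fun h => ⟨⟨h.1, hYsub.trans h.2⟩, h.2⟩⟩
      have hZw : Z.card < w := by
        by_contra hcon
        have h0 : (S 0).card = w := hF _ hY0.1
        have hc' : (S c).card = w := hF _ hYc.1
        have e1 : Z = S 0 := eq_of_subset_of_card_le inter_subset_left (by omega)
        have e2 : Z = S c := eq_of_subset_of_card_le inter_subset_right (by omega)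
        exact a2 (e2.symm.trans e1)
      have hZd : 1 ≤ deg F Z := by
        rw [← hdegZ]
        have : (1 : ℝ) ≤ (deg F' Z : ℝ) := hM1.trans a5
        exact_mod_cast this
      have h3 := hspread Z hYsub hZw hZd
      have h4 : Real.log (F'.card * σ ^ k) ≤ Real.log (deg F Z) := by
        rw [← hdegZ]
        exact Real.log_le_log (by positivity) a5
      have h5 : (((Z \ Y₀).card : ℕ) : ℝ) = Z.card - Y₀.card := by
        rw [card_sdiff_of_subset hYsub, Nat.cast_sub (card_le_card hYsub)]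
      rw [h5]
      rw [← hF'c] at h3
      -- combine
      set z : ℝ := (Z.card : ℝ) - Y₀.card with hz
      have h6 : Real.log F'.card * (z / (2 * m)) ≤ k * (s * Lam k) := by
        have : Real.log F'.card * (1 - z / (2 * m)) =
          Real.log F'.card - Real.log F'.card * (z / (2 * m)) := by ring
        rw [this] at h3
        linarith
      have hz0 : 0 ≤ z := by
        have : (Y₀.card : ℝ) ≤ Z.card := by exact_mod_cast card_le_card hYsub
        linarith
      have h7 : (s * c₀) * (z / (2 * m)) ≤ k * (s * Lam k) :=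
        (mul_le_mul_of_nonneg_right hlogM' (by positivity)).trans h6
      have h8 : c₀ * (z / (2 * m)) ≤ k * Lam k := by
        have h9 : s * (c₀ * (z / (2 * m))) ≤ s * (k * Lam k) := by
          calc s * (c₀ * (z / (2 * m))) = (s * c₀) * (z / (2 * m)) := by ring
            _ ≤ k * (s * Lam k) := h7
            _ = s * (k * Lam k) := by ring
        exact le_of_mul_le_mul_left h9 (by linarith)
      have hkL : 0 < k * Lam k := by positivity
      have h10 : (1 + 4 / ε) * (z / (2 * m)) ≤ 1 := by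
        have : (k * Lam k) * ((1 + 4 / ε) * (z / (2 * m))) ≤ (k * Lam k) * 1 := by
          rw [hc₀] at h8; linarith
        exact le_of_mul_le_mul_left this hkL
      have h11 : (4 / ε) * (z / (2 * m)) ≤ 1 := by
        have h13 : 0 ≤ z / (2 * m) := by positivity
        have h14 : (1 + 4 / ε) * (z / (2 * m)) = z / (2 * m) + (4 / ε) * (z / (2 * m)) := by ring
        linarith
      have h12 : (4 / ε) * (z / (2 * m)) = z / (ε / 2 * m) := by
        rw [div_mul_div_comm, div_eq_div_iff (by positivity) (by positivity)]; ring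
      rw [h12, div_le_one (by positivity)] at h11
      exact h11

end Pool.Agent.RainbowSun
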