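import Pool.Agent.RainbowSun.Main

/-!
# The rainbow sunflower conjecture for the bases of a matroid (MP_2812e0_co)

For every `k ≥ 2` there is a constant `C` such that for every matroid of rank `w` on a finite set `X`
with at least `C ^ w` bases the random partition of `X` into `k` parts admits, with probability at
least `1 - 2 ^ (-√w)`, a rainbow `k`-petal sunflower of bases.
-/

open Finset

namespace Pool.Agent.RainbowSun.MatroidBases

universe u

/-- The probability that the uniformly random partition of `X` into `k` parts has the property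
`P`: every element is put into one of the `k` parts independently and uniformly, so every map
`χ : X → Fin k` has the same probability. -/
noncomputable def prob (X : Type u) [Fintype X] (k : ℕ) (P : (X → Fin k) → Prop) : ℝ :=
  (Nat.card {χ : X → Fin k // P χ} : ℝ) / (Nat.card (X → Fin k) : ℝ)

/-- A rainbow `k`-petal sunflower in the family `F` with respect to the partition
`X_i = {x | χ x = i}`: distinct members `S_i` of `F` with `S_i \ S_j ⊆ X_i` for all `i ≠ j`. -/
def HasRainbowSunflower {X : Type u} {k : ℕ} (F : Set (Set X)) (χ : X → Fin k) : Prop :=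
  ∃ S : Fin k → Set X, Function.Injective S ∧ (∀ i, S i ∈ F) ∧
    ∀ i j, i ≠ j → S i \ S j ⊆ {x | χ x = i}

lemma prob_ge (X : Type u) [Fintype X] (k : ℕ) (hk : 1 ≤ k) (P : (X → Fin k) → Prop) (β : ℝ)
    (E : Finset (X → Fin k)) (hE : (E.card : ℝ) ≤ β * k ^ Fintype.card X)
    (hP : ∀ χ ∉ E, P χ) : 1 - β ≤ prob X k P := by
  classical
  have h1 : Nat.card (X → Fin k) = k ^ Fintype.card X := by
    rw [Nat.card_eq_fintype_card, Fintype.card_fun, Fintype.card_fin]
  have h2 : k ^ Fintype.card X ≤ Nat.card {χ : X → Fin k // P χ} + E.card := by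
    rw [Nat.card_eq_fintype_card, Fintype.card_subtype]
    have h3 : (univ : Finset (X → Fin k)) ⊆ univ.filter (fun χ => P χ) ∪ E := by
      intro χ _
      by_cases h : χ ∈ E
      · exact mem_union_right _ h
      · exact mem_union_left _ (mem_filter.mpr ⟨mem_univ _, hP χ h⟩)
    have h4 := (card_le_card h3).trans (card_union_le _ _)
    rwa [card_univ, Fintype.card_fun, Fintype.card_fin] at h4
  have h5 : ((k ^ Fintype.card X : ℕ) : ℝ) ≤ (Nat.card {χ : X → Fin k // P χ} : ℝ) + E.card := by
    exact_mod_cast h2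
  push_cast at h5
  have hk0 : (0 : ℝ) < (k : ℝ) ^ Fintype.card X := by
    have : (0 : ℝ) < k := by exact_mod_cast hk
    positivity
  rw [prob, h1]
  push_cast
  rw [le_div_iff₀ hk0]
  linarith

/-- The rainbow sunflower conjecture holds for the families of bases of matroids. -/
theorem result (k : ℕ) (hk : 2 ≤ k) :
    ∃ C : ℝ, ∀ (w : ℕ) (X : Type u) [Fintype X] (M : Matroid X),
      (∀ B, M.IsBase B → B.ncard = w) → C ^ w ≤ ({B | M.IsBase B}.ncard : ℝ) →
      1 - (2 : ℝ) ^ (-Real.sqrt w) ≤ prob X k (fun χ => HasRainbowSunflower {B | M.IsBase B} χ) := by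
  classical
  refine ⟨Real.exp (k * RainbowSun.Lam k * (1 + 4 / 1)), ?_⟩
  intro w X _ M hM hbig
  rcases Nat.eq_zero_or_pos w with hw | hw
  · subst hw
    have : 0 ≤ prob X k (fun χ => HasRainbowSunflower {B | M.IsBase B} χ) := by
      unfold prob; positivity
    simpa using this
  set F : Finset (Finset X) := univ.filter fun S => M.IsBase (S : Set X) with hF
  have hFmem : ∀ S, S ∈ F ↔ M.IsBase (S : Set X) := by intro S; simp [hF]
  have hFcard : ({B | M.IsBase B}.ncard : ℝ) = F.card := by
    have h1 : {B | M.IsBase B} = (fun S : Finset X => (S : Set X)) '' (F : Set (Finset X)) := by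
      ext B
      constructor
      · intro hB
        refine ⟨B.toFinset, ?_, by simp⟩
        rw [mem_coe, hFmem]
        simpa using hB
      · rintro ⟨S, hS, rfl⟩
        exact (hFmem S).mp (mem_coe.mp hS)
    rw [h1, Set.ncard_image_of_injective _ Finset.coe_injective, Set.ncard_coe_finset]
  rw [hFcard] at hbig
  have hcard : ∀ S ∈ F, S.card = w := by
    intro S hS
    have := hM _ ((hFmem S).mp hS)
    rwa [Set.ncard_coe_finset] at this
  have hlog : w * (k * RainbowSun.Lam k * (1 + 4 / 1)) ≤ Real.log F.card := by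
    have h1 := Real.log_le_log (by positivity) hbig
    rwa [Real.log_pow, Real.log_exp] at h1
  obtain ⟨Y₀, E, hE, hgood⟩ := RainbowSun.main hk 1 one_pos F w hw hcard hlog
  refine prob_ge X k (by omega) _ _ E hE ?_
  intro χ hχ
  obtain ⟨S, hS, hSc, hn⟩ := hgood χ hχ
  have hk0 : 0 < k := by omega
  -- the largest kernel
  set K : Finset X := S 0 ∩ S (k - 1) with hK
  have hKS : K ⊆ S 0 := inter_subset_left
  have hKne : K ≠ S 0 := by
    intro he
    have h1 : S 0 ⊆ S (k - 1) := by rw [← he]; exact inter_subset_right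
    have h2 : (S 0).card = (S (k - 1)).card := by
      rw [hcard _ (hS 0 hk0).1, hcard _ (hS (k - 1) (by omega)).1]
    exact (hSc (k - 1) (by omega) (by omega)).1 (eq_of_subset_of_card_le h1 h2.ge).symm
  have hKcard : K.card < w := by
    have h1 := card_lt_card (ssubset_of_subset_of_ne hKS hKne)
    rwa [hcard _ (hS 0 hk0).1] at h1
  have hKind : M.Indep (K : Set X) :=
    (((hFmem _).mp (hS 0 hk0).1).indep).subset (by exact_mod_cast hKS)
  -- bases with kernel `K`
  have hex : ∀ c, 1 ≤ c → c < k → ∃ B : Set X, M.IsBase B ∧ (K : Set X) ⊆ B ∧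
      ∀ x ∈ B, x ∉ K → (χ x : ℕ) = c := by
    intro c h1 hc
    obtain ⟨B, hB, hKB, hBK⟩ := hKind.exists_isBase_subset_union_isBase ((hFmem _).mp (hS c hc).1)
    refine ⟨B, hB, hKB, fun x hx hxK => ?_⟩
    have hxS : x ∈ S c := by
      rcases hBK hx with h | h
      · exact absurd h hxK
      · exact h
    refine (hSc c h1 hc).2.1 x (mem_sdiff.mpr ⟨hxS, fun hx0 => ?_⟩)
    exact hxK (hn c (k - 1) h1 (by omega) (by omega) (mem_inter.mpr ⟨hx0, hxS⟩))
  choose! B hBase hKB hBcol using hex
  have hall : ∀ c, c < k → ∃ T : Set X, M.IsBase T ∧ (K : Set X) ⊆ T ∧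
      ∀ x ∈ T, x ∉ K → (χ x : ℕ) = c := by
    intro c hc
    rcases Nat.eq_zero_or_pos c with h0 | h0
    · subst h0
      refine ⟨S 0, (hFmem _).mp (hS 0 hk0).1, by exact_mod_cast hKS, fun x hx hxK => ?_⟩
      refine (hSc (k - 1) (by omega) (by omega)).2.2.1 x (mem_sdiff.mpr ⟨hx, fun hx' => ?_⟩)
      exact hxK (mem_inter.mpr ⟨hx, hx'⟩)
    · exact ⟨B c, hBase c h0 hc, hKB c h0 hc, hBcol c h0 hc⟩
  choose! T hTbase hKT hTcol using hall
  -- every base has an element outside `K`
  have hout : ∀ c, c < k → ∃ x ∈ T c, x ∉ K := by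
    intro c hc
    by_contra hcon
    push Not at hcon
    have h1 : T c ⊆ (K : Set X) := fun x hx => hcon x hx
    have h2 := Set.ncard_le_ncard h1 (Set.toFinite _)
    rw [hM _ (hTbase c hc), Set.ncard_coe_finset] at h2
    omega
  refine ⟨fun i => T i, ?_, fun i => hTbase i i.2, ?_⟩
  · intro i j hij
    dsimp only at hij
    obtain ⟨x, hx, hxK⟩ := hout i i.2
    have e1 := hTcol i i.2 x hx hxK
    have e2 := hTcol j j.2 x (hij ▸ hx) hxK
    exact Fin.ext (e1.symm.trans e2)
  · intro i j _ x hx
    have hxK : x ∉ K := fun h => hx.2 (hKT j j.2 h)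
    exact Fin.ext (hTcol i i.2 x hx.1 hxK)

end Pool.Agent.RainbowSun.MatroidBases
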