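import Pool.Agent.RainbowSun.Core

/-!
# Nested rainbow sunflowers (MP_2812e0_co)
-/

open Finset

namespace Pool.Agent.RainbowSun

variable {X : Type*} [Fintype X] [DecidableEq X] {k : ℕ}

/-- Nested rainbow system: `S 0` is the centre, `S 0 ∩ S c` increases with `c`. -/
def Nest (F : Finset (Finset X)) (χ : X → Fin k) (thr : ℝ) : Prop :=
  ∃ S : ℕ → Finset X, S 0 ∈ F ∧
    (∀ c, 1 ≤ c → c < k → S c ∈ F ∧ S c ≠ S 0 ∧ (∀ x ∈ S c \ S 0, (χ x : ℕ) = c) ∧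
      (∀ x ∈ S 0 \ S c, (χ x : ℕ) = 0) ∧ thr ≤ (deg F (S 0 ∩ S c) : ℝ)) ∧
    ∀ c d, 1 ≤ c → c ≤ d → d < k → S 0 ∩ S c ⊆ S 0 ∩ S d

section

open scoped Classical

lemma sum_card_filter (F : Finset (Finset X)) (P : Finset X → (X → Fin k) → Prop)
    [inst : ∀ S χ, Decidable (P S χ)] :
    ∑ χ : X → Fin k, (F.filter fun S => P S χ).card =
      ((F ×ˢ (univ : Finset (X → Fin k))).filter fun p => P p.1 p.2).card := by
  simp only [card_filter, sum_product_right]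

/-- Markov's inequality for counting. -/
lemma markov {ι : Type*} (A : Finset ι) (f : ι → ℝ) (hf : ∀ i ∈ A, 0 ≤ f i) (b : ℝ) :
    ((A.filter fun i => b ≤ f i).card : ℝ) * b ≤ ∑ i ∈ A, f i := by
  calc ((A.filter fun i => b ≤ f i).card : ℝ) * b = ∑ i ∈ A.filter (fun i => b ≤ f i), b := by
        rw [sum_const, nsmul_eq_mul]
    _ ≤ ∑ i ∈ A.filter (fun i => b ≤ f i), f i :=
        sum_le_sum fun i hi => (mem_filter.mp hi).2
    _ ≤ ∑ i ∈ A, f i := sum_le_sum_of_subset_of_nonneg (filter_subset _ _) fun i hi _ => hf i hi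

/-- The kernels `Y ⊇ Y₀` with at least `t` members of `F` above. -/
noncomputable def Hv (F : Finset (Finset X)) (Y₀ : Finset X) (t : ℝ) : Finset (Finset X) :=
  (F.biUnion fun S => Icc Y₀ S).filter fun Y => t ≤ (deg F Y : ℝ)

omit [Fintype X] in
lemma card_Icc_le {Y₀ S : Finset X} {m : ℕ} (h : (S \ Y₀).card ≤ m) :
    (Icc Y₀ S).card ≤ 2 ^ m := by
  by_cases hs : Y₀ ⊆ S
  · rw [card_Icc_finset hs, ← card_sdiff_of_subset hs]
    exact Nat.pow_le_pow_right (by norm_num) h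
  · rw [Icc_eq_empty (by simpa using hs)]
    simp

omit [Fintype X] in
lemma Hv_card (F : Finset (Finset X)) (Y₀ : Finset X) (m : ℕ) (t : ℝ)
    (hm : ∀ S ∈ F, (S \ Y₀).card ≤ m) :
    ((Hv F Y₀ t).card : ℝ) * t ≤ F.card * 2 ^ m := by
  have h1 : ((Hv F Y₀ t).card : ℝ) * t ≤ ∑ Y ∈ Hv F Y₀ t, (deg F Y : ℝ) := by
    rw [← nsmul_eq_mul, ← sum_const]
    exact sum_le_sum fun Y hY => (mem_filter.mp hY).2
  refine h1.trans ?_
  have h2 : ∑ Y ∈ Hv F Y₀ t, deg F Y = ∑ S ∈ F, ((Hv F Y₀ t).filter fun Y => Y ⊆ S).card := by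
    simp only [deg, card_filter]
    rw [sum_comm]
  have h3 : ∑ S ∈ F, ((Hv F Y₀ t).filter fun Y => Y ⊆ S).card ≤ ∑ _S ∈ F, 2 ^ m := by
    refine sum_le_sum fun S hS => le_trans (card_le_card ?_) (card_Icc_le (hm S hS))
    intro Y hY
    rw [mem_filter, Hv, mem_filter, mem_biUnion] at hY
    obtain ⟨⟨⟨S', _, hY'⟩, _⟩, hYS⟩ := hY
    rw [mem_Icc] at hY' ⊢
    exact ⟨hY'.1, hYS⟩
  rw [sum_const, smul_eq_mul] at h3
  have h4 : ((∑ Y ∈ Hv F Y₀ t, deg F Y : ℕ) : ℝ) ≤ ((F.card * 2 ^ m : ℕ) : ℝ) := by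
    rw [h2]; exact_mod_cast h3
  push_cast at h4
  exact h4

/-- The exceptional members of `F` for the colour `c`. -/
noncomputable def Bd (F : Finset (Finset X)) (Y₀ : Finset X) (a c : Fin k) (t h : ℝ)
    (χ : X → Fin k) : Finset (Finset X) :=
  F.filter fun S => ∃ Y ∈ Hv F Y₀ t, Y ⊆ S ∧ (∀ x ∈ S \ Y, χ x = a) ∧
    (((F.filter fun S' => Y ⊆ S').filter fun S' => S' ⊆ S ∪ cls χ c).card : ℝ) ≤ h

lemma Bd_sum (F : Finset (Finset X)) (Y₀ : Finset X) (a c : Fin k) (t h : ℝ) (hh : 0 ≤ h) :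
    ∑ χ : X → Fin k, ((Bd F Y₀ a c t h χ).card : ℝ) ≤
      (Hv F Y₀ t).card * (h * k ^ Fintype.card X) := by
  have h1 : ∑ χ : X → Fin k, (Bd F Y₀ a c t h χ).card ≤
      (Hv F Y₀ t).card * (⌊h⌋₊ * k ^ Fintype.card X) := by
    unfold Bd
    rw [sum_card_filter]
    have hsub : ((F ×ˢ (univ : Finset (X → Fin k))).filter fun p =>
        ∃ Y ∈ Hv F Y₀ t, Y ⊆ p.1 ∧ (∀ x ∈ p.1 \ Y, p.2 x = a) ∧
          (((F.filter fun S' => Y ⊆ S').filter fun S' => S' ⊆ p.1 ∪ cls p.2 c).card : ℝ) ≤ h) ⊆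
        (Hv F Y₀ t).biUnion fun Y => (((F.filter fun S' => Y ⊆ S') ×ˢ
          (univ : Finset (X → Fin k))).filter fun p => (∀ x ∈ p.1 \ Y, p.2 x = a) ∧
          (((F.filter fun S' => Y ⊆ S').filter fun S' => S' ⊆ p.1 ∪ cls p.2 c).card ≤ ⌊h⌋₊)) := by
      intro p hp
      simp only [mem_filter, mem_product, mem_univ, and_true] at hp
      obtain ⟨hpF, Y, hY, hYp, hcol, hcard⟩ := hp
      rw [mem_biUnion]
      refine ⟨Y, hY, ?_⟩
      simp only [mem_filter, mem_product, mem_univ, and_true]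
      refine ⟨⟨hpF, hYp⟩, hcol, ?_⟩
      exact Nat.le_floor hcard
    refine (card_le_card hsub).trans (card_biUnion_le.trans ?_)
    rw [← smul_eq_mul (a := (Hv F Y₀ t).card), ← sum_const]
    exact sum_le_sum fun Y _ => lonely_count _ Y (fun S hS => (mem_filter.mp hS).2) a c _
  have h2 : ((∑ χ : X → Fin k, (Bd F Y₀ a c t h χ).card : ℕ) : ℝ) ≤
      (((Hv F Y₀ t).card * (⌊h⌋₊ * k ^ Fintype.card X) : ℕ) : ℝ) := by exact_mod_cast h1
  push_cast at h2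
  refine h2.trans ?_
  gcongr
  exact Nat.floor_le hh

/-- Counting the members of `F` with a light trace. -/
lemma start_count (F : Finset (Finset X)) (Y₀ S₀ : Finset X) (m : ℕ) (a : Fin k) (t : ℝ)
    (ht : 0 ≤ t) (hF : ∀ S ∈ F, Y₀ ⊆ S) (hS₀ : S₀ ∈ F) (hm : ∀ S ∈ F, (S \ Y₀).card ≤ m)
    (χ : X → Fin k) :
    ((F.filter fun S' => S' ⊆ S₀ ∪ cls χ a).card : ℝ) ≤
      ((F.filter fun S => t ≤ (deg F (Y₀ ∪ (S \ cls χ a)) : ℝ)).card : ℝ) + 2 ^ m * t := by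
  set C := F.filter fun S' => S' ⊆ S₀ ∪ cls χ a with hC
  set St := F.filter fun S => t ≤ (deg F (Y₀ ∪ (S \ cls χ a)) : ℝ) with hSt
  have h1 : C.card ≤ St.card + (C \ St).card := by
    have := card_le_card_sdiff_add_card (s := C) (t := St)
    omega
  have h2 : C \ St ⊆ ((Icc Y₀ S₀).filter fun A => (deg F A : ℝ) < t).biUnion
      fun A => F.filter fun S' => A ⊆ S' := by
    intro S' hS'
    rw [mem_sdiff, hC, hSt, mem_filter, mem_filter] at hS'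
    obtain ⟨⟨hS'F, hS'sub⟩, hS'n⟩ := hS'
    have hlt : (deg F (Y₀ ∪ (S' \ cls χ a)) : ℝ) < t := by
      by_contra hge
      exact hS'n ⟨hS'F, not_lt.mp hge⟩
    rw [mem_biUnion]
    refine ⟨Y₀ ∪ (S' \ cls χ a), ?_, ?_⟩
    · rw [mem_filter, mem_Icc]
      refine ⟨⟨subset_union_left, union_subset (hF _ hS₀) fun x hx => ?_⟩, hlt⟩
      rw [mem_sdiff] at hx
      exact (mem_union.mp (hS'sub hx.1)).resolve_right hx.2
    · rw [mem_filter]
      exact ⟨hS'F, union_subset (hF _ hS'F) sdiff_subset⟩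
  have h3 : ((C \ St).card : ℝ) ≤ 2 ^ m * t := by
    have h4 : ((C \ St).card : ℝ) ≤
        ∑ A ∈ (Icc Y₀ S₀).filter fun A => (deg F A : ℝ) < t, (deg F A : ℝ) := by
      have := (card_le_card h2).trans card_biUnion_le
      have h5 : ((C \ St).card : ℝ) ≤
          ((∑ A ∈ (Icc Y₀ S₀).filter fun A => (deg F A : ℝ) < t, deg F A : ℕ) : ℝ) := by
        exact_mod_cast this
      push_cast at h5
      exact h5
    refine h4.trans ?_
    calc _ ≤ ∑ _A ∈ (Icc Y₀ S₀).filter fun A => (deg F A : ℝ) < t, t :=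
          sum_le_sum fun A hA => (mem_filter.mp hA).2.le
      _ = (((Icc Y₀ S₀).filter fun A => (deg F A : ℝ) < t).card : ℝ) * t := by
          rw [sum_const, nsmul_eq_mul]
      _ ≤ 2 ^ m * t := by
          refine mul_le_mul_of_nonneg_right ?_ ht
          have := (card_filter_le (Icc Y₀ S₀) fun A => (deg F A : ℝ) < t).trans
            (card_Icc_le (hm _ hS₀))
          exact_mod_cast this
  have h6 : (C.card : ℝ) ≤ St.card + (C \ St).card := by exact_mod_cast h1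
  linarith

/-- One step: from the kernel `Y` to the kernel `S₁ ∩ T`. -/
lemma step (F : Finset (Finset X)) (Y S₁ : Finset X) (m : ℕ) (c : Fin k) (h : ℝ) (hh : 2 ≤ h)
    (hYS : Y ⊆ S₁) (hm : (S₁ \ Y).card ≤ m) (χ : X → Fin k)
    (hbig : h < (((F.filter fun S' => Y ⊆ S').filter fun S' => S' ⊆ S₁ ∪ cls χ c).card : ℝ)) :
    ∃ T ∈ F, T ≠ S₁ ∧ Y ⊆ S₁ ∩ T ∧ T \ S₁ ⊆ cls χ c ∧
      h / (2 * 2 ^ m) ≤ (deg F (S₁ ∩ T) : ℝ) := by
  set D := (F.filter fun S' => Y ⊆ S').filter fun S' => S' ⊆ S₁ ∪ cls χ c with hD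
  set D' := D.erase S₁ with hD'
  have h1 : (D.card : ℝ) ≤ D'.card + 1 := by
    have : D.card ≤ D'.card + 1 := by
      rw [hD']
      have := pred_card_le_card_erase (s := D) (a := S₁)
      omega
    exact_mod_cast this
  have h2 : h / 2 < D'.card := by linarith
  -- some fibre is large
  have h3 : ∃ Y' ∈ D'.image (fun T => S₁ ∩ T),
      h / (2 * 2 ^ m) ≤ ((D'.filter fun T => S₁ ∩ T = Y').card : ℝ) := by
    by_contra hcon
    push Not at hcon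
    have h4 : (D'.card : ℝ) = ∑ Y' ∈ D'.image (fun T => S₁ ∩ T),
        ((D'.filter fun T => S₁ ∩ T = Y').card : ℝ) := by
      have := card_eq_sum_card_image (fun T => S₁ ∩ T) D'
      exact_mod_cast this
    have h5 : (D'.image fun T => S₁ ∩ T).card ≤ 2 ^ m := by
      refine le_trans (card_le_card ?_) (card_Icc_le hm)
      intro Y' hY'
      rw [mem_image] at hY'
      obtain ⟨T, hT, rfl⟩ := hY'
      rw [hD', mem_erase, hD, mem_filter, mem_filter] at hT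
      rw [mem_Icc]
      exact ⟨subset_inter hYS hT.2.1.2, inter_subset_left⟩
    have h6 : (D'.card : ℝ) ≤ 2 ^ m * (h / (2 * 2 ^ m)) := by
      rw [h4]
      calc _ ≤ ∑ _Y' ∈ D'.image (fun T => S₁ ∩ T), h / (2 * 2 ^ m) :=
            sum_le_sum fun Y' hY' => (hcon Y' hY').le
        _ = ((D'.image fun T => S₁ ∩ T).card : ℝ) * (h / (2 * 2 ^ m)) := by
            rw [sum_const, nsmul_eq_mul]
        _ ≤ 2 ^ m * (h / (2 * 2 ^ m)) := by
            refine mul_le_mul_of_nonneg_right ?_ (by positivity)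
            exact_mod_cast h5
    have h7 : (2 : ℝ) ^ m * (h / (2 * 2 ^ m)) = h / 2 := by
      field_simp
    linarith
  obtain ⟨Y', hY', hcard⟩ := h3
  rw [mem_image] at hY'
  obtain ⟨T, hT, rfl⟩ := hY'
  have hT' := hT
  rw [hD', mem_erase, hD, mem_filter, mem_filter] at hT
  refine ⟨T, hT.2.1.1, hT.1, subset_inter hYS hT.2.1.2, ?_, ?_⟩
  · intro x hx
    rw [mem_sdiff] at hx
    exact (mem_union.mp (hT.2.2 hx.1)).resolve_left hx.2
  · refine hcard.trans ?_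
    have : (D'.filter fun T' => S₁ ∩ T' = S₁ ∩ T).card ≤ deg F (S₁ ∩ T) := by
      refine card_le_card ?_
      intro S' hS'
      rw [mem_filter, hD', mem_erase, hD, mem_filter, mem_filter] at hS'
      rw [mem_filter]
      refine ⟨hS'.1.2.1.1, ?_⟩
      rw [← hS'.2]
      exact inter_subset_right
    exact_mod_cast this

/-- The iteration over the colours. -/
lemma iterate (F : Finset (Finset X)) (Y₀ S₁ : Finset X) (m : ℕ)
    (hm : ∀ S ∈ F, (S \ Y₀).card ≤ m) (a : Fin k) (M σ : ℝ) (hM0 : 0 ≤ M)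
    (hσ : 0 < σ) (hσ1 : σ ≤ 1) (hM : 1 ≤ M * σ ^ k) (χ : X → Fin k) (hS₁ : S₁ ∈ F)
    (hbad : ∀ c : Fin k,
      S₁ ∉ Bd F Y₀ a c (M * σ ^ (c : ℕ)) (2 * 2 ^ m * (M * σ ^ ((c : ℕ) + 1))) χ)
    (Y₁ : Finset X) (hY₁ : Y₀ ⊆ Y₁) (hY₁S : Y₁ ⊆ S₁) (hcol : ∀ x ∈ S₁ \ Y₁, χ x = a)
    (hdeg : M * σ ^ 1 ≤ (deg F Y₁ : ℝ)) (j : ℕ) (hj : 1 ≤ j) (hjk : j ≤ k) :
    ∃ Y : Finset X, Y₀ ⊆ Y ∧ Y ⊆ S₁ ∧ M * σ ^ j ≤ (deg F Y : ℝ) ∧ (∀ x ∈ S₁ \ Y, χ x = a) ∧
      ∃ S : ℕ → Finset X, (∀ c, 1 ≤ c → c < j → S c ∈ F ∧ S c ≠ S₁ ∧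
        (∀ x ∈ S c \ S₁, (χ x : ℕ) = c) ∧ (∀ x ∈ S₁ \ S c, χ x = a) ∧
        M * σ ^ k ≤ (deg F (S₁ ∩ S c) : ℝ) ∧ S₁ ∩ S c ⊆ Y) ∧
        ∀ c d, 1 ≤ c → c ≤ d → d < j → S₁ ∩ S c ⊆ S₁ ∩ S d := by
  induction j, hj using Nat.le_induction with
  | base =>
    refine ⟨Y₁, hY₁, hY₁S, hdeg, hcol, fun _ => ∅, fun c h1 h2 => by omega, fun c d h1 h2 h3 => by omega⟩
  | succ j hj ih =>
    obtain ⟨Y, hY₀, hYS, hYdeg, hYcol, S, hS, hnest⟩ := ih (by omega)
    have hjk' : j < k := by omega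
    set c : Fin k := ⟨j, hjk'⟩ with hc
    have hpow : M * σ ^ k ≤ M * σ ^ (j + 1) :=
      mul_le_mul_of_nonneg_left (pow_le_pow_of_le_one hσ.le hσ1 hjk) hM0
    have h1 : (1 : ℝ) ≤ 2 ^ m := one_le_pow₀ (by norm_num)
    have hh : (2 : ℝ) ≤ 2 * 2 ^ m * (M * σ ^ (j + 1)) := by
      have : (1 : ℝ) ≤ M * σ ^ (j + 1) := hM.trans hpow
      nlinarith
    have hmem : Y ∈ Hv F Y₀ (M * σ ^ j) := by
      rw [Hv, mem_filter, mem_biUnion]
      exact ⟨⟨S₁, hS₁, mem_Icc.mpr ⟨hY₀, hYS⟩⟩, hYdeg⟩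
    have hbig : 2 * 2 ^ m * (M * σ ^ (j + 1)) <
        (((F.filter fun S' => Y ⊆ S').filter fun S' => S' ⊆ S₁ ∪ cls χ c).card : ℝ) := by
      by_contra hcon
      refine hbad c ?_
      rw [Bd, mem_filter]
      exact ⟨hS₁, Y, hmem, hYS, hYcol, not_lt.mp hcon⟩
    have hSY : (S₁ \ Y).card ≤ m :=
      (card_le_card (sdiff_subset_sdiff le_rfl hY₀)).trans (hm _ hS₁)
    obtain ⟨T, hTF, hTne, hYT, hTc, hTdeg⟩ := step F Y S₁ m c _ hh hYS hSY χ hbig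
    have hval : 2 * 2 ^ m * (M * σ ^ (j + 1)) / (2 * 2 ^ m) = M * σ ^ (j + 1) := by
      field_simp
    rw [hval] at hTdeg
    refine ⟨S₁ ∩ T, hY₀.trans hYT, inter_subset_left, hTdeg, ?_, Function.update S j T, ?_, ?_⟩
    · intro x hx
      refine hYcol x ?_
      rw [mem_sdiff] at hx ⊢
      exact ⟨hx.1, fun h => hx.2 (hYT h)⟩
    · intro e h1e h2e
      by_cases hej : e = j
      · subst hej
        rw [Function.update_self]
        refine ⟨hTF, hTne, ?_, ?_, hpow.trans hTdeg, le_rfl⟩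
        · intro x hx
          have := mem_cls.mp (hTc hx)
          rw [this, hc]
        · intro x hx
          refine hYcol x ?_
          rw [mem_sdiff] at hx ⊢
          refine ⟨hx.1, fun h => hx.2 ?_⟩
          exact (mem_inter.mp (hYT h)).2
      · rw [Function.update_of_ne hej]
        obtain ⟨a1, a2, a3, a4, a5, a6⟩ := hS e h1e (by omega)
        exact ⟨a1, a2, a3, a4, a5, a6.trans hYT⟩
    · intro e d h1e hed hdj
      by_cases hdj' : d = j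
      · by_cases hej : e = j
        · rw [hdj', hej]
        · rw [hdj', Function.update_self, Function.update_of_ne hej]
          exact (hS e h1e (by omega)).2.2.2.2.2.trans hYT
      · have hej : e ≠ j := by omega
        rw [Function.update_of_ne hdj', Function.update_of_ne hej]
        exact hnest e d h1e hed (by omega)

/-- The main counting theorem. -/
theorem core (hk : 2 ≤ k) (F : Finset (Finset X)) (Y₀ : Finset X) (m : ℕ)
    (hF : ∀ S ∈ F, Y₀ ⊆ S) (hm : ∀ S ∈ F, (S \ Y₀).card ≤ m) (δ σ : ℝ) (hδ : 0 < δ)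
    (hδ1 : δ ≤ 1) (hσ : 0 < σ) (hσδ : 4 * k * (4 * k) ^ m * σ ≤ δ ^ 2)
    (hM : 1 ≤ (F.card : ℝ) * σ ^ k) :
    ∃ E : Finset (X → Fin k), (E.card : ℝ) ≤ (k + 1) * (δ * k ^ Fintype.card X) ∧
      ∀ χ ∉ E, Nest F χ ((F.card : ℝ) * σ ^ k) := by
  set M : ℝ := (F.card : ℝ) with hMdef
  set n := Fintype.card X with hn
  have hk0 : (0 : ℝ) < k := by exact_mod_cast (by omega : 0 < k)
  have hk1 : (1 : ℝ) ≤ k := by exact_mod_cast (by omega : 1 ≤ k)
  have hkm : (1 : ℝ) ≤ (k : ℝ) ^ m := one_le_pow₀ hk1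
  have h2m : (1 : ℝ) ≤ 2 ^ m := one_le_pow₀ (by norm_num)
  have h4k : (4 * k : ℝ) ^ m = 2 ^ m * 2 ^ m * k ^ m := by
    rw [mul_pow, ← mul_pow 2 2 m]; norm_num
  have hσ1 : σ ≤ 1 := by
    have h1 : (1 : ℝ) ≤ 4 * k * (4 * k) ^ m := by
      have : (1 : ℝ) ≤ (4 * k) ^ m := one_le_pow₀ (by linarith)
      nlinarith
    have h2 : δ ^ 2 ≤ 1 := pow_le_one₀ hδ.le hδ1
    nlinarith
  have hMnn : 0 ≤ M := by positivity
  have hMpos : 0 < M := by
    rcases hMnn.lt_or_eq with h | h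
    · exact h
    · rw [← h, zero_mul] at hM; linarith
  set a : Fin k := ⟨0, by omega⟩ with ha
  set h₀ : ℝ := δ * M / k ^ m with hh₀
  have hh₀pos : 0 < h₀ := by positivity
  set b : ℝ := h₀ / (2 * k) with hb
  have hbpos : 0 < b := by positivity
  -- the first exceptional set
  set E₀ : Finset (X → Fin k) := univ.filter fun χ => ∀ S ∈ F,
    ((F.filter fun S' => S' ⊆ S ∪ cls χ a).card : ℝ) ≤ h₀ with hE₀
  have hE₀card : (E₀.card : ℝ) ≤ δ * k ^ n := by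
    have h1 : ∑ χ : X → Fin k, (F.filter fun S =>
        (F.filter fun S' => S' ⊆ S ∪ cls χ a).card ≤ ⌊h₀⌋₊).card ≤
        ⌊h₀⌋₊ * k ^ m * k ^ n := by
      rw [sum_card_filter]
      exact few_count F Y₀ m hF hm (by omega) a _
    have h2 : E₀.card * F.card ≤ ∑ χ : X → Fin k, (F.filter fun S =>
        (F.filter fun S' => S' ⊆ S ∪ cls χ a).card ≤ ⌊h₀⌋₊).card := by
      calc E₀.card * F.card = ∑ _χ ∈ E₀, F.card := by rw [sum_const, smul_eq_mul]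
        _ ≤ ∑ χ ∈ E₀, (F.filter fun S =>
            (F.filter fun S' => S' ⊆ S ∪ cls χ a).card ≤ ⌊h₀⌋₊).card := by
            refine sum_le_sum fun χ hχ => card_le_card ?_
            intro S hS
            rw [mem_filter]
            refine ⟨hS, Nat.le_floor ?_⟩
            rw [hE₀, mem_filter] at hχ
            exact hχ.2 S hS
        _ ≤ _ := sum_le_sum_of_subset (subset_univ _)
    have h3 : (E₀.card : ℝ) * M ≤ ⌊h₀⌋₊ * k ^ m * k ^ n := by
      rw [hMdef]; exact_mod_cast h2.trans h1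
    have h4 : (E₀.card : ℝ) * M ≤ (δ * k ^ n) * M := by
      refine h3.trans ?_
      calc (⌊h₀⌋₊ : ℝ) * k ^ m * k ^ n ≤ h₀ * k ^ m * k ^ n := by
            gcongr
            exact Nat.floor_le hh₀pos.le
        _ = (δ * k ^ n) * M := by rw [hh₀]; field_simp
    exact le_of_mul_le_mul_right h4 hMpos
  -- the other exceptional sets
  set Ec : Fin k → Finset (X → Fin k) := fun c => univ.filter fun χ =>
    b ≤ ((Bd F Y₀ a c (M * σ ^ (c : ℕ)) (2 * 2 ^ m * (M * σ ^ ((c : ℕ) + 1))) χ).card : ℝ)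
    with hEc
  have hEccard : ∀ c, ((Ec c).card : ℝ) ≤ δ * k ^ n := by
    intro c
    have ht : 0 < M * σ ^ (c : ℕ) := by positivity
    have h1 := markov univ (fun χ : X → Fin k =>
      ((Bd F Y₀ a c (M * σ ^ (c : ℕ)) (2 * 2 ^ m * (M * σ ^ ((c : ℕ) + 1))) χ).card : ℝ))
      (fun _ _ => by positivity) b
    have h2 := Bd_sum F Y₀ a c (M * σ ^ (c : ℕ)) (2 * 2 ^ m * (M * σ ^ ((c : ℕ) + 1)))
      (by positivity)
    have h3 := Hv_card F Y₀ m (M * σ ^ (c : ℕ)) hm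
    have h4 : ((Hv F Y₀ (M * σ ^ (c : ℕ))).card : ℝ) *
        (2 * 2 ^ m * (M * σ ^ ((c : ℕ) + 1)) * k ^ n) ≤
        M * 2 ^ m * (2 * 2 ^ m * σ * k ^ n) := by
      calc ((Hv F Y₀ (M * σ ^ (c : ℕ))).card : ℝ) *
        (2 * 2 ^ m * (M * σ ^ ((c : ℕ) + 1)) * k ^ n) =
          (((Hv F Y₀ (M * σ ^ (c : ℕ))).card : ℝ) * (M * σ ^ (c : ℕ))) *
            (2 * 2 ^ m * σ * k ^ n) := by ring
        _ ≤ _ := by
          refine mul_le_mul_of_nonneg_right h3 (by positivity)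
    have h5 : ((Ec c).card : ℝ) * b ≤ M * 2 ^ m * (2 * 2 ^ m * σ * k ^ n) :=
      (h1.trans h2).trans h4
    have h6 : M * 2 ^ m * (2 * 2 ^ m * σ * k ^ n) ≤ (δ * k ^ n) * b := by
      rw [hb, hh₀]
      have h7 : (δ * k ^ n) * (δ * M / k ^ m / (2 * k)) =
          M * k ^ n * (δ ^ 2 / (2 * k * k ^ m)) := by field_simp
      have h8 : M * 2 ^ m * (2 * 2 ^ m * σ * k ^ n) = M * k ^ n * (2 * (2 ^ m * 2 ^ m) * σ) := by
        ring
      rw [h7, h8]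
      refine mul_le_mul_of_nonneg_left ?_ (by positivity)
      rw [le_div_iff₀ (by positivity)]
      calc 2 * (2 ^ m * 2 ^ m) * σ * (2 * k * k ^ m) = 4 * k * (2 ^ m * 2 ^ m * k ^ m) * σ := by
            ring
        _ ≤ δ ^ 2 := by rw [← h4k]; exact hσδ
    exact le_of_mul_le_mul_right (h5.trans h6) hbpos
  refine ⟨E₀ ∪ univ.biUnion Ec, ?_, ?_⟩
  · have h1 : (E₀ ∪ univ.biUnion Ec).card ≤ E₀.card + ∑ c, (Ec c).card :=
      (card_union_le _ _).trans (Nat.add_le_add_left card_biUnion_le _)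
    have h2 : ((E₀ ∪ univ.biUnion Ec).card : ℝ) ≤ E₀.card + ∑ c, ((Ec c).card : ℝ) := by
      exact_mod_cast h1
    have h3 : ∑ c, ((Ec c).card : ℝ) ≤ ∑ _c : Fin k, δ * k ^ n :=
      sum_le_sum fun c _ => hEccard c
    rw [sum_const, card_univ, Fintype.card_fin, nsmul_eq_mul] at h3
    linarith
  · intro χ hχ
    rw [mem_union, not_or] at hχ
    obtain ⟨hχ₀, hχc⟩ := hχ
    have hχc' : ∀ c : Fin k, ((Bd F Y₀ a c (M * σ ^ (c : ℕ))
        (2 * 2 ^ m * (M * σ ^ ((c : ℕ) + 1))) χ).card : ℝ) < b := by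
      intro c
      by_contra hcon
      refine hχc ?_
      rw [mem_biUnion]
      refine ⟨c, mem_univ _, ?_⟩
      rw [hEc, mem_filter]
      exact ⟨mem_univ _, not_lt.mp hcon⟩
    rw [hE₀, mem_filter] at hχ₀
    push Not at hχ₀
    obtain ⟨S₀, hS₀, hbig⟩ := hχ₀ (mem_univ _)
    have hst := start_count F Y₀ S₀ m a (M * σ ^ 1) (by positivity) hF hS₀ hm χ
    set St := F.filter fun S => M * σ ^ 1 ≤ (deg F (Y₀ ∪ (S \ cls χ a)) : ℝ) with hSt
    have hhalf : 2 ^ m * (M * σ ^ 1) ≤ h₀ / 2 := by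
      rw [hh₀, pow_one]
      have h1 : δ ^ 2 ≤ δ := by nlinarith
      have h2 : 4 * k * (2 ^ m * 2 ^ m * k ^ m) * σ ≤ δ := by
        rw [← h4k]; linarith
      have h3 : 2 * (2 ^ m * k ^ m) * σ ≤ 4 * k * (2 ^ m * 2 ^ m * k ^ m) * σ := by
        have h5 : (2 : ℝ) * (2 ^ m * k ^ m) ≤ 4 * k * (2 ^ m * 2 ^ m * k ^ m) := by
          have h6 : (0 : ℝ) < 2 ^ m * k ^ m := by positivity
          have h7 : (2 : ℝ) * (2 ^ m * k ^ m) ≤ 4 * (2 ^ m * k ^ m) := by linarith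
          have h8 : (4 : ℝ) * (2 ^ m * k ^ m) ≤ 4 * (2 ^ m * k ^ m) * (k * 2 ^ m) :=
            le_mul_of_one_le_right (by positivity) (one_le_mul_of_one_le_of_one_le hk1 h2m)
          calc (2 : ℝ) * (2 ^ m * k ^ m) ≤ 4 * (2 ^ m * k ^ m) := h7
            _ ≤ 4 * (2 ^ m * k ^ m) * (k * 2 ^ m) := h8
            _ = 4 * k * (2 ^ m * 2 ^ m * k ^ m) := by ring
        exact mul_le_mul_of_nonneg_right h5 hσ.le
      have h9 : 2 * (2 ^ m * k ^ m) * σ ≤ δ := h3.trans h2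
      rw [div_div, le_div_iff₀ (by positivity)]
      calc 2 ^ m * (M * σ) * (k ^ m * 2) = M * (2 * (2 ^ m * k ^ m) * σ) := by ring
        _ ≤ M * δ := mul_le_mul_of_nonneg_left h9 hMnn
        _ = δ * M := by ring
    have hStbig : h₀ / 2 < (St.card : ℝ) := by linarith
    have hne : ∃ S₁ ∈ St, S₁ ∉ univ.biUnion fun c : Fin k => Bd F Y₀ a c (M * σ ^ (c : ℕ))
        (2 * 2 ^ m * (M * σ ^ ((c : ℕ) + 1))) χ := by
      by_contra hcon
      push Not at hcon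
      have h1 : St.card ≤ ∑ c : Fin k, (Bd F Y₀ a c (M * σ ^ (c : ℕ))
          (2 * 2 ^ m * (M * σ ^ ((c : ℕ) + 1))) χ).card :=
        (card_le_card hcon).trans card_biUnion_le
      have h2 : (St.card : ℝ) ≤ ∑ c : Fin k, ((Bd F Y₀ a c (M * σ ^ (c : ℕ))
          (2 * 2 ^ m * (M * σ ^ ((c : ℕ) + 1))) χ).card : ℝ) := by exact_mod_cast h1
      have h3 : ∑ c : Fin k, ((Bd F Y₀ a c (M * σ ^ (c : ℕ))
          (2 * 2 ^ m * (M * σ ^ ((c : ℕ) + 1))) χ).card : ℝ) ≤ ∑ _c : Fin k, b :=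
        sum_le_sum fun c _ => (hχc' c).le
      rw [sum_const, card_univ, Fintype.card_fin, nsmul_eq_mul] at h3
      have h4 : (k : ℝ) * b = h₀ / 2 := by rw [hb]; field_simp
      linarith
    obtain ⟨S₁, hS₁, hS₁bad⟩ := hne
    rw [hSt, mem_filter] at hS₁
    have hbad : ∀ c : Fin k,
        S₁ ∉ Bd F Y₀ a c (M * σ ^ (c : ℕ)) (2 * 2 ^ m * (M * σ ^ ((c : ℕ) + 1))) χ := by
      intro c hc
      exact hS₁bad (mem_biUnion.mpr ⟨c, mem_univ _, hc⟩)
    have hcol : ∀ x ∈ S₁ \ (Y₀ ∪ (S₁ \ cls χ a)), χ x = a := by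
      intro x hx
      rw [mem_sdiff, mem_union, not_or, mem_sdiff, not_and, not_not] at hx
      exact mem_cls.mp (hx.2.2 hx.1)
    obtain ⟨Y, _, _, _, _, S, hS, hnest⟩ := iterate F Y₀ S₁ m hm a M σ hMnn hσ hσ1 hM χ hS₁.1
      hbad (Y₀ ∪ (S₁ \ cls χ a)) subset_union_left
      (union_subset (hF _ hS₁.1) sdiff_subset) hcol hS₁.2 k (by omega) le_rfl
    refine ⟨Function.update S 0 S₁, ?_, ?_, ?_⟩
    · rw [Function.update_self]; exact hS₁.1
    · intro c h1c hck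
      rw [Function.update_self, Function.update_of_ne (by omega : c ≠ 0)]
      obtain ⟨a1, a2, a3, a4, a5, a6⟩ := hS c h1c hck
      refine ⟨a1, a2, a3, fun x hx => ?_, a5⟩
      rw [a4 x hx, ha]
    · intro c d h1c hcd hdk
      rw [Function.update_self, Function.update_of_ne (by omega : c ≠ 0),
        Function.update_of_ne (by omega : d ≠ 0)]
      exact hnest c d h1c hcd hdk

end

end Pool.Agent.RainbowSun
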